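import Mathlib

set_option autoImplicit false

/-! Large induced matchings in the powers of a tensor with two blocks. -/

namespace Pool.Agent.Y860.PR

open Finset

/-- the two groupings of the legs -/
def grp {d : ℕ} (b : Bool) (i : Fin d) : Bool :=
  if b then decide (i.val = 1 ∨ i.val = 2) else decide (i.val ≤ 1)

/-- the support of the tensor -/
def TP {d a : ℕ} (I : Fin d → Bool × Fin a) : Prop :=
  ∀ i j, (I i).1 = (I j).1 ∧ (grp (I i).1 i = grp (I i).1 j → (I i).2 = (I j).2)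

/-! ### numbers -/

/-- the value on the false positions of leg `r` -/
def lx (r : ℕ) (i j : ℕ) : ℕ := if r ≤ 1 then i else i + 2 * j

/-- the value on the true positions of leg `r` -/
def ly (r : ℕ) (i j : ℕ) : ℕ := if r = 1 ∨ r = 2 then i + j else j

theorem core {D h e : ℕ} (P : Finset ((Fin D → Fin h) × (Fin D → Fin h))) (t1 t2 t3 : ℕ)
    (h1 : ∀ p ∈ P, ∑ δ, ((p.1 δ : ℕ) + p.2 δ) ^ 2 = t1)
    (h2 : ∀ p ∈ P, ∑ δ, (p.1 δ : ℕ) ^ 2 = t2) (h3 : ∀ p ∈ P, ∑ δ, (p.2 δ : ℕ) ^ 2 = t3)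
    (q : Fin (e + 4) → (Fin D → Fin h) × (Fin D → Fin h)) (hq : ∀ r, q r ∈ P)
    (hx : ∀ δ, ∀ r s : Fin (e + 4), grp false r = grp false s →
      lx r ((q r).1 δ) ((q r).2 δ) = lx s ((q s).1 δ) ((q s).2 δ))
    (hy : ∀ δ, ∀ r s : Fin (e + 4), grp true r = grp true s →
      ly r ((q r).1 δ) ((q r).2 δ) = ly s ((q s).1 δ) ((q s).2 δ)) :
    ∀ r s, q r = q s := by
  obtain ⟨r0, hr0⟩ : ∃ r : Fin (e + 4), r.val = 0 := ⟨⟨0, by omega⟩, rfl⟩
  obtain ⟨r1, hr1⟩ : ∃ r : Fin (e + 4), r.val = 1 := ⟨⟨1, by omega⟩, rfl⟩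
  obtain ⟨r2, hr2⟩ : ∃ r : Fin (e + 4), r.val = 2 := ⟨⟨2, by omega⟩, rfl⟩
  obtain ⟨r3, hr3⟩ : ∃ r : Fin (e + 4), r.val = 3 := ⟨⟨3, by omega⟩, rfl⟩
  have g1 := hx
  -- the relations
  have ex : ∀ δ, ((q r0).1 δ : ℕ) = (q r1).1 δ := by
    intro δ
    have := hx δ r0 r1 (by simp [grp, hr0, hr1])
    simpa [lx, hr0, hr1] using this
  have ek : ∀ δ, ∀ r : Fin (e + 4), 2 ≤ r.val →
      ((q r2).1 δ : ℕ) + 2 * (q r2).2 δ = (q r).1 δ + 2 * (q r).2 δ := by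
    intro δ r hr
    have := hx δ r2 r (by simp only [grp, hr2]; simp; omega)
    simp only [lx, hr2] at this
    rw [if_neg (by omega), if_neg (by omega)] at this
    exact this
  have el : ∀ δ, ((q r1).1 δ : ℕ) + (q r1).2 δ = (q r2).1 δ + (q r2).2 δ := by
    intro δ
    have := hy δ r1 r2 (by simp [grp, hr1, hr2])
    simpa [ly, hr1, hr2] using this
  have ej : ∀ δ, ∀ r : Fin (e + 4), 3 ≤ r.val → ((q r0).2 δ : ℕ) = (q r).2 δ := by
    intro δ r hr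
    have := hy δ r0 r (by simp only [grp, hr0]; simp; omega)
    simp only [ly, hr0] at this
    rw [if_neg (by omega), if_neg (by omega)] at this
    exact this
  -- the sum of squares
  have hsum : ∑ δ, (((((q r0).1 δ : ℕ) : ℤ) + ((q r0).2 δ : ℕ) - (((q r1).1 δ : ℕ) + ((q r1).2 δ : ℕ))) ^ 2 +
      ((((q r0).2 δ : ℕ) : ℤ) + (((q r1).1 δ : ℕ) + ((q r1).2 δ : ℕ)) -
        (((q r2).1 δ : ℕ) + 2 * ((q r2).2 δ : ℕ))) ^ 2) = 0 := by
    have e1 : ∀ δ, ((((q r0).1 δ : ℕ) : ℤ) + ((q r0).2 δ : ℕ) - (((q r1).1 δ : ℕ) + ((q r1).2 δ : ℕ))) ^ 2 +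
      ((((q r0).2 δ : ℕ) : ℤ) + (((q r1).1 δ : ℕ) + ((q r1).2 δ : ℕ)) -
        (((q r2).1 δ : ℕ) + 2 * ((q r2).2 δ : ℕ))) ^ 2 =
        ((((q r0).1 δ : ℕ) : ℤ) + ((q r0).2 δ : ℕ)) ^ 2 +
        ((((q r1).2 δ : ℕ) : ℤ) ^ 2 - (((q r1).1 δ : ℕ) : ℤ) ^ 2) -
        (2 * ((((q r2).1 δ : ℕ) : ℤ) + ((q r2).2 δ : ℕ)) ^ 2 - (((q r2).1 δ : ℕ) : ℤ) ^ 2 +
          (((q r2).2 δ : ℕ) : ℤ) ^ 2) +
        ((((q r3).1 δ : ℕ) : ℤ) + ((q r3).2 δ : ℕ)) ^ 2 := by
      intro δ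
      have a1 : (((q r0).1 δ : ℕ) : ℤ) = ((q r1).1 δ : ℕ) := by exact_mod_cast ex δ
      have a2 : (((q r2).1 δ : ℕ) : ℤ) + 2 * ((q r2).2 δ : ℕ) =
          ((q r3).1 δ : ℕ) + 2 * ((q r3).2 δ : ℕ) := by exact_mod_cast ek δ r3 (by omega)
      have a3 : (((q r1).1 δ : ℕ) : ℤ) + ((q r1).2 δ : ℕ) =
          ((q r2).1 δ : ℕ) + ((q r2).2 δ : ℕ) := by exact_mod_cast el δ
      have a4 : (((q r0).2 δ : ℕ) : ℤ) = ((q r3).2 δ : ℕ) := by exact_mod_cast ej δ r3 (by omega)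
      generalize (((q r0).1 δ : ℕ) : ℤ) = i0 at *
      generalize (((q r0).2 δ : ℕ) : ℤ) = j0 at *
      generalize (((q r1).1 δ : ℕ) : ℤ) = i1 at *
      generalize (((q r1).2 δ : ℕ) : ℤ) = j1 at *
      generalize (((q r2).1 δ : ℕ) : ℤ) = i2 at *
      generalize (((q r2).2 δ : ℕ) : ℤ) = j2 at *
      generalize (((q r3).1 δ : ℕ) : ℤ) = i3 at *
      generalize (((q r3).2 δ : ℕ) : ℤ) = j3 at *
      have b1 : i1 = i0 := a1.symm
      have b3 : j3 = j0 := a4.symm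
      have b2 : i3 = i2 + 2 * j2 - 2 * j0 := by linarith
      have b4 : j1 = i2 + j2 - i0 := by linarith
      subst b1; subst b3; subst b4; subst b2
      ring
    rw [Finset.sum_congr rfl (fun δ _ => e1 δ)]
    rw [Finset.sum_add_distrib, Finset.sum_sub_distrib, Finset.sum_add_distrib,
      Finset.sum_sub_distrib, Finset.sum_add_distrib, Finset.sum_sub_distrib, ← Finset.mul_sum]
    have c1 : ∀ r, ∑ δ, ((((q r).1 δ : ℕ) : ℤ) + ((q r).2 δ : ℕ)) ^ 2 = t1 := by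
      intro r; exact_mod_cast h1 _ (hq r)
    have c2 : ∀ r, ∑ δ, (((q r).1 δ : ℕ) : ℤ) ^ 2 = t2 := by
      intro r; exact_mod_cast h2 _ (hq r)
    have c3 : ∀ r, ∑ δ, (((q r).2 δ : ℕ) : ℤ) ^ 2 = t3 := by
      intro r; exact_mod_cast h3 _ (hq r)
    rw [c1, c1, c1, c2, c2, c3, c3]
    ring
  have hz := (Finset.sum_eq_zero_iff_of_nonneg (fun δ _ => by positivity)).1 hsum
  have hl : ∀ δ, ((q r0).1 δ : ℕ) + (q r0).2 δ = (q r1).1 δ + (q r1).2 δ ∧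
      ((q r0).2 δ : ℕ) + ((q r1).1 δ + (q r1).2 δ) = (q r2).1 δ + 2 * (q r2).2 δ := by
    intro δ
    have h4 := hz δ (mem_univ δ)
    have h5 : ((((q r0).1 δ : ℕ) : ℤ) + ((q r0).2 δ : ℕ) - (((q r1).1 δ : ℕ) + ((q r1).2 δ : ℕ))) ^ 2 = 0 := by
      nlinarith [sq_nonneg ((((q r0).1 δ : ℕ) : ℤ) + ((q r0).2 δ : ℕ) - (((q r1).1 δ : ℕ) + ((q r1).2 δ : ℕ))),
        sq_nonneg ((((q r0).2 δ : ℕ) : ℤ) + (((q r1).1 δ : ℕ) + ((q r1).2 δ : ℕ)) -
        (((q r2).1 δ : ℕ) + 2 * ((q r2).2 δ : ℕ)))]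
    have h6 : ((((q r0).2 δ : ℕ) : ℤ) + (((q r1).1 δ : ℕ) + ((q r1).2 δ : ℕ)) -
        (((q r2).1 δ : ℕ) + 2 * ((q r2).2 δ : ℕ))) ^ 2 = 0 := by
      rw [h5, zero_add] at h4; exact h4
    have h7 := pow_eq_zero_iff (two_ne_zero) |>.1 h5
    have h8 := pow_eq_zero_iff (two_ne_zero) |>.1 h6
    constructor <;> omega
  have key : ∀ r, q r = q r0 := by
    intro r
    have hval : ∀ δ, ((q r).1 δ : ℕ) = (q r0).1 δ ∧ ((q r).2 δ : ℕ) = (q r0).2 δ := by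
      intro δ
      have a1 := ex δ
      have a2 := el δ
      have a3 := hl δ
      rcases Nat.lt_or_ge r.val 3 with hr | hr
      · have hcases : r = r0 ∨ r = r1 ∨ r = r2 := by
          rcases Nat.lt_or_ge r.val 1 with h | h
          · left; apply Fin.ext; omega
          · rcases Nat.lt_or_ge r.val 2 with h' | h'
            · right; left; apply Fin.ext; omega
            · right; right; apply Fin.ext; omega
        rcases hcases with rfl | rfl | rfl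
        · exact ⟨rfl, rfl⟩
        · constructor <;> omega
        · constructor <;> omega
      · have a4 := ek δ r (by omega)
        have a5 := ej δ r hr
        constructor <;> omega
    refine Prod.ext (funext fun δ => Fin.ext (hval δ).1) (funext fun δ => Fin.ext (hval δ).2)
  intro r s
  rw [key r, key s]

/-- pigeonhole -/
theorem exists_fiber (D h : ℕ) : ∃ (P : Finset ((Fin D → Fin h) × (Fin D → Fin h)))
    (t1 t2 t3 : ℕ), (∀ p ∈ P, ∑ δ, ((p.1 δ : ℕ) + p.2 δ) ^ 2 = t1) ∧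
    (∀ p ∈ P, ∑ δ, (p.1 δ : ℕ) ^ 2 = t2) ∧ (∀ p ∈ P, ∑ δ, (p.2 δ : ℕ) ^ 2 = t3) ∧
    h ^ (2 * D) ≤ (4 * h ^ 2 * D + 1) ^ 3 * P.card := by
  classical
  set N : ℕ := 4 * h ^ 2 * D + 1 with hN
  set U : Finset ((Fin D → Fin h) × (Fin D → Fin h)) := univ with hU
  set st : (Fin D → Fin h) × (Fin D → Fin h) → ℕ × ℕ × ℕ := fun p =>
    (∑ δ, ((p.1 δ : ℕ) + p.2 δ) ^ 2, ∑ δ, (p.1 δ : ℕ) ^ 2, ∑ δ, (p.2 δ : ℕ) ^ 2) with hst
  set B : Finset (ℕ × ℕ × ℕ) := range N ×ˢ (range N ×ˢ range N) with hB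
  have hb : ∀ p, st p ∈ B := by
    intro p
    have hle : ∀ x : Fin D → ℕ, (∀ δ, x δ ≤ 2 * h) → ∑ δ, x δ ^ 2 < N := by
      intro x hx
      have : ∑ δ, x δ ^ 2 ≤ ∑ _δ : Fin D, (2 * h) ^ 2 :=
        sum_le_sum fun δ _ => Nat.pow_le_pow_left (hx δ) 2
      rw [sum_const, card_univ, Fintype.card_fin, smul_eq_mul] at this
      rw [hN]
      nlinarith
    simp only [hB, hst, mem_product, mem_range]
    refine ⟨hle _ fun δ => ?_, hle _ fun δ => ?_, hle _ fun δ => ?_⟩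
    · have := (p.1 δ).2; have := (p.2 δ).2; omega
    · have := (p.1 δ).2; omega
    · have := (p.2 δ).2; omega
  by_cases hcard : U.card = 0
  · refine ⟨∅, 0, 0, 0, by simp, by simp, by simp, ?_⟩
    rw [hU, card_univ, Fintype.card_prod, Fintype.card_fun, Fintype.card_fin, Fintype.card_fin,
      ← pow_add, ← two_mul] at hcard
    rw [hcard]; simp
  obtain ⟨y, hy, hmax⟩ : ∃ y ∈ B, U.card ≤ B.card * (U.filter (fun p => st p = y)).card := by
    by_contra hcon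
    push Not at hcon
    have h1 : U.card = ∑ y ∈ B, (U.filter (fun p => st p = y)).card :=
      card_eq_sum_card_fiberwise (fun p _ => hb p)
    have hBpos : 0 < B.card := by
      rw [hB, card_product, card_product, card_range]
      positivity
    have h2 : B.card * U.card = ∑ y ∈ B, B.card * (U.filter (fun p => st p = y)).card := by
      rw [← mul_sum, ← h1]
    have h3 : ∑ y ∈ B, B.card * (U.filter (fun p => st p = y)).card < ∑ _y ∈ B, U.card :=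
      sum_lt_sum_of_nonempty (card_pos.1 hBpos) hcon
    rw [sum_const, smul_eq_mul, ← h2] at h3
    exact lt_irrefl _ h3
  refine ⟨U.filter (fun p => st p = y), y.1, y.2.1, y.2.2, ?_, ?_, ?_, ?_⟩
  · intro p hp
    rw [← (mem_filter.1 hp).2]
  · intro p hp
    rw [← (mem_filter.1 hp).2]
  · intro p hp
    rw [← (mem_filter.1 hp).2]
  · have e1 : U.card = h ^ (2 * D) := by
      rw [hU, card_univ, Fintype.card_prod, Fintype.card_fun, Fintype.card_fin, Fintype.card_fin,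
        ← pow_add, ← two_mul]
    have e2 : B.card = N ^ 3 := by
      rw [hB, card_product, card_product, card_range]; ring
    rw [← e1, ← e2]
    exact hmax

end Pool.Agent.Y860.PR
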