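import Mathlib
import Pool.Agent.Y860.PR.Comb

set_option autoImplicit false

/-! Balanced words and the induced matching in the powers. -/

namespace Pool.Agent.Y860.PR

open Finset

/-- balanced words of length `2 t` -/
abbrev Wd (t : ℕ) : Type := {w : Fin (2 * t) → Bool // (univ.filter (fun k => w k = false)).card = t}

theorem card_Wd (t : ℕ) : Fintype.card (Wd t) = Nat.centralBinom t := by
  rw [Nat.centralBinom]
  have h1 : Fintype.card (Wd t) =
      (Finset.powersetCard t (univ : Finset (Fin (2 * t)))).card := by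
    rw [← Fintype.card_coe]
    refine Fintype.card_congr ⟨fun w => ⟨univ.filter (fun k => w.1 k = false), ?_⟩,
      fun s => ⟨fun k => decide (k ∉ s.1), ?_⟩, ?_, ?_⟩
    · rw [mem_powersetCard]; exact ⟨subset_univ _, w.2⟩
    · refine Eq.trans ?_ (mem_powersetCard.1 s.2).2
      congr 1
      ext k
      simp
    · intro w
      apply Subtype.ext
      funext k
      simp
    · intro s
      apply Subtype.ext
      ext k
      simp
  rw [h1, card_powersetCard, card_univ, Fintype.card_fin]

/-- labels are encoded on the positions where the word has a given value -/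
theorem exists_enc (a t : ℕ) (b : Bool) (w : Wd t) : ∃ f : Fin (a ^ t) → Fin (2 * t) → Fin a,
    ∀ x y, (∀ k, w.1 k = b → f x k = f y k) → x = y := by
  classical
  rcases Nat.eq_zero_or_pos a with ha | ha
  · rcases Nat.eq_zero_or_pos t with ht | ht
    · subst ht
      refine ⟨fun _ k => absurd k.2 (by omega), fun x y _ => ?_⟩
      have h1 : x.val < 1 := lt_of_lt_of_eq x.2 (pow_zero a)
      have h2 : y.val < 1 := lt_of_lt_of_eq y.2 (pow_zero a)
      exact Fin.ext (by omega)
    · have : IsEmpty (Fin (a ^ t)) := by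
        rw [ha, zero_pow (by omega)]
        infer_instance
      exact ⟨fun x => (this.false x).elim, fun x => (this.false x).elim⟩
  · have hcard : Fintype.card {k // w.1 k = b} = t := by
      rw [Fintype.card_subtype]
      cases b with
      | false => exact w.2
      | true =>
        have h1 := Finset.card_filter_add_card_filter_not (s := (univ : Finset (Fin (2 * t))))
          (fun k => w.1 k = false)
        rw [w.2, card_univ, Fintype.card_fin] at h1
        have h2 : (univ.filter (fun k => ¬ w.1 k = false)) = univ.filter (fun k => w.1 k = true) := by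
          ext k
          simp
        rw [h2] at h1
        omega
    have hc2 : Fintype.card (Fin (a ^ t)) = Fintype.card ({k // w.1 k = b} → Fin a) := by
      rw [Fintype.card_fun, Fintype.card_fin, Fintype.card_fin, hcard]
    obtain ⟨e⟩ := Fintype.card_eq.1 hc2
    refine ⟨fun x k => if hk : w.1 k = b then e x ⟨k, hk⟩ else ⟨0, ha⟩, fun x y h => ?_⟩
    apply e.injective
    funext k
    have := h k.1 k.2
    simp only [dif_pos k.2] at this
    exact this

/-- the induced matching in the power `2 t D` -/
theorem embed (a t D h e : ℕ) (hh : 3 * h ≤ a ^ t)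
    (P : Finset ((Fin D → Fin h) × (Fin D → Fin h))) (t1 t2 t3 : ℕ)
    (h1 : ∀ p ∈ P, ∑ δ, ((p.1 δ : ℕ) + p.2 δ) ^ 2 = t1)
    (h2 : ∀ p ∈ P, ∑ δ, (p.1 δ : ℕ) ^ 2 = t2) (h3 : ∀ p ∈ P, ∑ δ, (p.2 δ : ℕ) ^ 2 = t3) :
    ∃ E : Fin (e + 4) → ((Fin D → Wd t) × P) → (Fin (D * (2 * t)) → Bool × Fin a),
      ∀ q : Fin (e + 4) → (Fin D → Wd t) × P,
        (∀ k, TP (fun r => E r (q r) k)) ↔ ∀ r s, q r = q s := by
  classical
  choose f hf using fun (b : Bool) (w : Wd t) => exists_enc a t b w
  -- labels
  have hlx : ∀ (r : ℕ) (i j : Fin h), lx r i j < a ^ t := by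
    intro r i j
    have := i.2; have := j.2
    unfold lx
    split_ifs <;> omega
  have hly : ∀ (r : ℕ) (i j : Fin h), ly r i j < a ^ t := by
    intro r i j
    have := i.2; have := j.2
    unfold ly
    split_ifs <;> omega
  obtain ⟨enc, henc⟩ : ∃ enc : Wd t → Fin (a ^ t) → Fin (a ^ t) → Fin (2 * t) → Bool × Fin a,
      ∀ w x y k, enc w x y k = (w.1 k, if w.1 k = false then f false w x k else f true w y k) :=
    ⟨fun w x y k => (w.1 k, if w.1 k = false then f false w x k else f true w y k),
      fun _ _ _ _ => rfl⟩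
  refine ⟨fun r u m => enc (u.1 (finProdFinEquiv.symm m).1)
    ⟨lx r (u.2.1.1 (finProdFinEquiv.symm m).1) (u.2.1.2 (finProdFinEquiv.symm m).1), hlx _ _ _⟩
    ⟨ly r (u.2.1.1 (finProdFinEquiv.symm m).1) (u.2.1.2 (finProdFinEquiv.symm m).1), hly _ _ _⟩
    (finProdFinEquiv.symm m).2, ?_⟩
  intro q
  constructor
  · intro hT
    -- block by block
    have hT' : ∀ (δ : Fin D) (k : Fin (2 * t)), TP (fun r => enc ((q r).1 δ)
        ⟨lx r ((q r).2.1.1 δ) ((q r).2.1.2 δ), hlx _ _ _⟩
        ⟨ly r ((q r).2.1.1 δ) ((q r).2.1.2 δ), hly _ _ _⟩ k) := by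
      intro δ k
      have := hT (finProdFinEquiv (δ, k))
      simpa only [Equiv.symm_apply_apply] using this
    have hw : ∀ δ, ∀ r s, (q r).1 δ = (q s).1 δ := by
      intro δ r s
      apply Subtype.ext
      funext k
      have := (hT' δ k r s).1
      simp only [henc] at this
      exact this
    have hx : ∀ δ, ∀ r s : Fin (e + 4), grp false r = grp false s →
        lx r ((q r).2.1.1 δ) ((q r).2.1.2 δ) = lx s ((q s).2.1.1 δ) ((q s).2.1.2 δ) := by
      intro δ r s hrs
      have h4 : (⟨lx r ((q r).2.1.1 δ) ((q r).2.1.2 δ), hlx _ _ _⟩ : Fin (a ^ t)) =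
          ⟨lx s ((q s).2.1.1 δ) ((q s).2.1.2 δ), hlx _ _ _⟩ := by
        apply hf false ((q r).1 δ)
        intro k hk
        have h5 := (hT' δ k r s).2
        simp only [henc] at h5
        rw [if_pos hk, ← hw δ r s, if_pos hk, hk] at h5
        exact h5 hrs
      exact congrArg Fin.val h4
    have hy : ∀ δ, ∀ r s : Fin (e + 4), grp true r = grp true s →
        ly r ((q r).2.1.1 δ) ((q r).2.1.2 δ) = ly s ((q s).2.1.1 δ) ((q s).2.1.2 δ) := by
      intro δ r s hrs
      have h4 : (⟨ly r ((q r).2.1.1 δ) ((q r).2.1.2 δ), hly _ _ _⟩ : Fin (a ^ t)) =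
          ⟨ly s ((q s).2.1.1 δ) ((q s).2.1.2 δ), hly _ _ _⟩ := by
        apply hf true ((q r).1 δ)
        intro k hk
        have h5 := (hT' δ k r s).2
        simp only [henc] at h5
        have hk' : ¬ ((q r).1 δ).1 k = false := by rw [hk]; simp
        rw [if_neg hk', ← hw δ r s, if_neg hk', hk] at h5
        exact h5 hrs
      exact congrArg Fin.val h4
    have hall := core P t1 t2 t3 h1 h2 h3 (fun r => (q r).2.1) (fun r => (q r).2.2) hx hy
    intro r s
    refine Prod.ext (funext fun δ => hw δ r s) (Subtype.ext (hall r s))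
  · intro hq m r s
    have h4 : q r = q s := hq r s
    refine ⟨?_, fun hg => ?_⟩
    · simp only [henc]
      rw [h4]
    · simp only [henc] at hg ⊢
      rw [h4] at hg ⊢
      generalize hu : (q s).1 (finProdFinEquiv.symm m).1 = w at hg ⊢
      generalize (q s).2.1.1 (finProdFinEquiv.symm m).1 = i
      generalize (q s).2.1.2 (finProdFinEquiv.symm m).1 = j
      generalize (finProdFinEquiv.symm m).2 = k at hg ⊢
      cases hb : w.1 k with
      | false =>
        rw [hb] at hg
        simp only [if_true]
        congr 1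
        apply Fin.ext
        simp only [grp, lx] at hg ⊢
        simp only [Bool.false_eq_true, if_false, decide_eq_decide] at hg
        by_cases h5 : r.val ≤ 1
        · rw [if_pos h5, if_pos (hg.1 h5)]
        · rw [if_neg h5, if_neg (fun h6 => h5 (hg.2 h6))]
      | true =>
        rw [hb] at hg
        simp only [Bool.true_eq_false, if_false]
        congr 1
        apply Fin.ext
        simp only [grp, ly] at hg ⊢
        simp only [if_true, decide_eq_decide] at hg
        by_cases h5 : r.val = 1 ∨ r.val = 2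
        · rw [if_pos h5, if_pos (hg.1 h5)]
        · rw [if_neg h5, if_neg (fun h6 => h5 (hg.2 h6))]

end Pool.Agent.Y860.PR
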