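import Mathlib
import Pool.Agent.Y860.PR.Words

set_option autoImplicit false

/-! The size of the induced matchings. -/

namespace Pool.Agent.Y860.PR

open Finset Filter Topology

theorem comb (a e : ℕ) (ha : 2 ≤ a) (c : ℝ) (hc0 : 0 < c) (hc1 : c < 1) :
    ∃ m : ℕ, 1 ≤ m ∧ ∃ (κ : Type) (_ : Fintype κ)
      (E : Fin (e + 4) → κ → (Fin m → Bool × Fin a)),
      (∀ q : Fin (e + 4) → κ, (∀ k, TP (fun r => E r (q r) k)) ↔ ∀ r s, q r = q s) ∧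
      c ^ m * (2 * a : ℝ) ^ m ≤ Fintype.card κ := by
  have hc2 : c ^ 2 < 1 := by nlinarith
  obtain ⟨t, ht2, ht⟩ : ∃ t : ℕ, 2 ≤ t ∧ (t : ℝ) * (c ^ 2) ^ t ≤ 1 / 100 := by
    have h1 := tendsto_self_mul_const_pow_of_lt_one (r := c ^ 2) (by positivity) hc2
    obtain ⟨t, h2, h3⟩ := ((h1.eventually (ge_mem_nhds (show (0 : ℝ) < 1 / 100 by norm_num))).and
      (eventually_ge_atTop 2)).exists
    exact ⟨t, h3, h2⟩
  have hat : 4 ≤ a ^ t := by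
    calc 4 = 2 ^ 2 := by norm_num
      _ ≤ a ^ 2 := Nat.pow_le_pow_left ha 2
      _ ≤ a ^ t := Nat.pow_le_pow_right (by omega) ht2
  obtain ⟨h, hh⟩ : ∃ h : ℕ, h = a ^ t / 3 := ⟨_, rfl⟩
  have hh1 : 1 ≤ h := by omega
  have hh3 : 3 * h ≤ a ^ t := by omega
  have hh5 : a ^ t ≤ 5 * h := by omega
  have hhr : (1 : ℝ) ≤ h := by exact_mod_cast hh1
  obtain ⟨D, hD1, hD⟩ : ∃ D : ℕ, 1 ≤ D ∧ ((4 * h ^ 2 * D + 1 : ℕ) : ℝ) ^ 3 ≤ 2 ^ D := by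
    have h1 := tendsto_pow_const_div_const_pow_of_one_lt 3 (show (1 : ℝ) < 2 by norm_num)
    have hpos : (0 : ℝ) < 1 / (125 * (h : ℝ) ^ 6) := by positivity
    obtain ⟨D, h2, h3⟩ := ((h1.eventually (ge_mem_nhds hpos)).and (eventually_ge_atTop 1)).exists
    refine ⟨D, h3, ?_⟩
    have hD0 : (1 : ℝ) ≤ D := by exact_mod_cast h3
    rw [div_le_div_iff₀ (by positivity) (by positivity), one_mul] at h2
    have h4 : ((4 * h ^ 2 * D + 1 : ℕ) : ℝ) ≤ 5 * (h : ℝ) ^ 2 * D := by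
      push_cast
      nlinarith [mul_le_mul hhr hhr (by norm_num) (by linarith : (0 : ℝ) ≤ h),
        mul_le_mul (one_le_pow₀ hhr : (1 : ℝ) ≤ (h : ℝ) ^ 2) hD0 (by norm_num)
          (by positivity : (0 : ℝ) ≤ (h : ℝ) ^ 2)]
    calc ((4 * h ^ 2 * D + 1 : ℕ) : ℝ) ^ 3 ≤ (5 * (h : ℝ) ^ 2 * D) ^ 3 := by gcongr
      _ = (D : ℝ) ^ 3 * (125 * (h : ℝ) ^ 6) := by ring
      _ ≤ 2 ^ D := h2
  obtain ⟨P, t1, t2, t3, h1, h2, h3, hP⟩ := exists_fiber D h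
  obtain ⟨E, hE⟩ := embed a t D h e hh3 P t1 t2 t3 h1 h2 h3
  refine ⟨D * (2 * t), Nat.mul_pos hD1 (by omega), (Fin D → Wd t) × P, inferInstance, E, hE, ?_⟩
  have hcard : Fintype.card ((Fin D → Wd t) × P) = Nat.centralBinom t ^ D * P.card := by
    rw [Fintype.card_prod, Fintype.card_fun, Fintype.card_fin, card_Wd, Fintype.card_coe]
  rw [hcard]
  push_cast
  set W : ℝ := (Nat.centralBinom t : ℝ) with hW
  have hW4 : (4 : ℝ) ^ t ≤ 2 * t * W := by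
    have := Nat.four_pow_le_two_mul_self_mul_centralBinom t (by omega)
    rw [hW]
    exact_mod_cast this
  have hW0 : 0 ≤ W := Nat.cast_nonneg _
  have htr : (0 : ℝ) < t := by exact_mod_cast (by omega : 0 < t)
  have hPr : (h : ℝ) ^ (2 * D) ≤ 2 ^ D * P.card := by
    have e1 : ((h ^ (2 * D) : ℕ) : ℝ) ≤ (((4 * h ^ 2 * D + 1) ^ 3 * P.card : ℕ) : ℝ) :=
      Nat.cast_le.2 hP
    push_cast at e1 hD
    exact e1.trans (mul_le_mul_of_nonneg_right hD (Nat.cast_nonneg _))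
  -- one block
  have hblock : (c ^ 2) ^ t * (2 * a : ℝ) ^ (2 * t) ≤ W * (h : ℝ) ^ 2 / 2 := by
    have e1 : (2 * a : ℝ) ^ (2 * t) = 4 ^ t * ((a : ℝ) ^ t) ^ 2 := by
      have e6 : (a : ℝ) ^ (2 * t) = ((a : ℝ) ^ t) ^ 2 := by rw [← pow_mul, mul_comm]
      have e7 : (2 : ℝ) ^ (2 * t) = 4 ^ t := by rw [pow_mul]; norm_num
      rw [mul_pow, e6, e7]
    have e2 : ((a : ℝ) ^ t) ^ 2 ≤ 25 * (h : ℝ) ^ 2 := by
      have e3 : ((a ^ t : ℕ) : ℝ) ≤ ((5 * h : ℕ) : ℝ) := Nat.cast_le.2 hh5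
      push_cast at e3
      have e4 : (0 : ℝ) ≤ (a : ℝ) ^ t := by positivity
      nlinarith
    rw [e1]
    calc (c ^ 2) ^ t * (4 ^ t * ((a : ℝ) ^ t) ^ 2)
        ≤ (c ^ 2) ^ t * ((2 * t * W) * (25 * (h : ℝ) ^ 2)) := by gcongr
      _ = (t * (c ^ 2) ^ t) * (50 * (W * (h : ℝ) ^ 2)) := by ring
      _ ≤ 1 / 100 * (50 * (W * (h : ℝ) ^ 2)) := by gcongr
      _ = W * (h : ℝ) ^ 2 / 2 := by ring
  have e5 : c ^ (D * (2 * t)) * (2 * a : ℝ) ^ (D * (2 * t)) =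
      ((c ^ 2) ^ t * (2 * a : ℝ) ^ (2 * t)) ^ D := by
    rw [← pow_mul c 2 t, ← mul_pow, ← mul_pow, ← pow_mul, mul_comm (2 * t) D]
  rw [e5]
  calc ((c ^ 2) ^ t * (2 * a : ℝ) ^ (2 * t)) ^ D ≤ (W * (h : ℝ) ^ 2 / 2) ^ D := by gcongr
    _ = W ^ D * ((h : ℝ) ^ (2 * D) / 2 ^ D) := by
        rw [div_pow, mul_pow, pow_mul, mul_div_assoc]
    _ ≤ W ^ D * P.card := by
        have : (h : ℝ) ^ (2 * D) / 2 ^ D ≤ P.card := by
          rw [div_le_iff₀ (by positivity)]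
          linarith
        gcongr

end Pool.Agent.Y860.PR
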