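import Mathlib

set_option autoImplicit false

/-! Tensors, partition rank, analytic rank, tensor powers. -/

namespace Pool.Agent.Y860.PR

open Finset

/-- the multilinear form of a `d`-dimensional tensor with index set `ι` -/
def form {F : Type*} [CommSemiring F] {d : ℕ} {ι : Type*} [Fintype ι] (A : (Fin d → ι) → F)
    (X : Fin d → ι → F) : F :=
  ∑ I : Fin d → ι, A I * ∏ i, X i (I i)

/-- the identity tensor -/
def idT {F : Type*} [Zero F] [One F] {d : ℕ} {ι : Type*} [DecidableEq ι] : (Fin d → ι) → F :=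
  fun I => if ∀ i j, I i = I j then 1 else 0

/-- the `m`-th tensor power, with index set `ι ^ m` -/
def tpow {F : Type*} [CommMonoid F] {d : ℕ} {ι : Type*} (A : (Fin d → ι) → F) (m : ℕ) :
    (Fin d → (Fin m → ι)) → F :=
  fun I => ∏ k, A (fun j => I j k)

/-- the form of `A` is a sum of `r` products `g h`, where `g` depends only on the variables `X i`
with `i ∈ S` and `h` only on those with `i ∉ S`, for a proper nonempty set `S` -/
def PRankLE {F : Type*} [CommSemiring F] {d : ℕ} {ι : Type*} [Fintype ι] (A : (Fin d → ι) → F)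
    (r : ℕ) : Prop :=
  ∃ (S : Fin r → Finset (Fin d)) (g h : Fin r → (Fin d → ι → F) → F),
    (∀ j, (S j).Nonempty ∧ S j ≠ univ) ∧
    (∀ j X Y, (∀ i ∈ S j, X i = Y i) → g j X = g j Y) ∧
    (∀ j X Y, (∀ i ∉ S j, X i = Y i) → h j X = h j Y) ∧
    ∀ X, form A X = ∑ j, g j X * h j X

/-- partition rank -/
noncomputable def prank {F : Type*} [CommSemiring F] {d : ℕ} {ι : Type*} [Fintype ι]
    (A : (Fin d → ι) → F) : ℕ :=
  sInf {r : ℕ | PRankLE A r}

/-- the bias `𝔼 ω ^ f(X)` of a tensor over `𝔽_p`, with `ω = e ^ (2 π i / p)` -/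
noncomputable def bias {p : ℕ} [NeZero p] {d : ℕ} {ι : Type*} [Fintype ι] [DecidableEq ι]
    (A : (Fin d → ι) → ZMod p) : ℂ :=
  (∑ X : Fin d → ι → ZMod p, ZMod.stdAddChar (form A X)) /
    (Fintype.card (Fin d → ι → ZMod p) : ℂ)

/-- analytic rank -/
noncomputable def arank {p : ℕ} [NeZero p] {d : ℕ} {ι : Type*} [Fintype ι] [DecidableEq ι]
    (A : (Fin d → ι) → ZMod p) : ℝ :=
  - Real.logb p (bias A).re

end Pool.Agent.Y860.PR
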