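import Mathlib

set_option autoImplicit false

/-! The partition rank of a diagonal tensor with nonzero entries is full. -/

namespace Pool.Agent.Y860.PR

open Finset

universe u

open Classical in
/-- a subspace contains a vector whose support is at least its dimension -/
theorem exists_supp {F : Type u} [Field F] {κ : Type} [Fintype κ] (V : Submodule F (κ → F)) :
    ∃ v ∈ V, Module.finrank F V ≤ (univ.filter (fun x => v x ≠ 0)).card := by
  set P : ℕ → Prop := fun n => ∃ v ∈ V, (univ.filter (fun x => v x ≠ 0)).card = n with hP
  have hP0 : P 0 := ⟨0, V.zero_mem, by simp⟩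
  have hb : ∀ v : κ → F, (univ.filter (fun x => v x ≠ 0)).card ≤ Fintype.card κ := fun v => by
    rw [← card_univ]; exact card_le_card (filter_subset _ _)
  obtain ⟨v, hv, hvn⟩ : P (Nat.findGreatest P (Fintype.card κ)) :=
    Nat.findGreatest_spec (Nat.zero_le _) hP0
  refine ⟨v, hv, ?_⟩
  by_contra hlt
  have hlt := not_le.1 hlt
  -- restriction to the support
  set s : Finset κ := univ.filter (fun x => v x ≠ 0) with hs
  set ρ : V →ₗ[F] (s → F) := (LinearMap.funLeft F F (fun x : s => (x : κ))).comp V.subtype with hρ
  have hker : LinearMap.ker ρ ≠ ⊥ := by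
    apply LinearMap.ker_ne_bot_of_finrank_lt
    rw [Module.finrank_fintype_fun_eq_card, Fintype.card_coe]
    exact hlt
  obtain ⟨w, hw, hw0⟩ := (Submodule.ne_bot_iff _).1 hker
  have hws : ∀ x ∈ s, (w : κ → F) x = 0 := by
    intro x hx
    have h1 := LinearMap.mem_ker.1 hw
    have h2 := congrFun h1 ⟨x, hx⟩
    simpa [hρ, LinearMap.funLeft] using h2
  have hw1 : ∃ y, (w : κ → F) y ≠ 0 := by
    by_contra h
    push Not at h
    apply hw0
    ext y
    simpa using h y
  obtain ⟨y, hy⟩ := hw1
  have hys : y ∉ s := fun h => hy (hws y h)
  have hsub : insert y s ⊆ univ.filter (fun x => (v + (w : κ → F)) x ≠ 0) := by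
    intro x hx
    rw [mem_filter]
    refine ⟨mem_univ _, ?_⟩
    rcases mem_insert.1 hx with rfl | hx
    · have : v x = 0 := by
        by_contra h
        exact hys (by rw [hs, mem_filter]; exact ⟨mem_univ _, h⟩)
      rw [Pi.add_apply, this, zero_add]
      exact hy
    · rw [Pi.add_apply, hws x hx, add_zero]
      exact (mem_filter.1 hx).2
  have hcard := card_le_card hsub
  rw [card_insert_of_notMem hys] at hcard
  have hPn : P (univ.filter (fun x => (v + (w : κ → F)) x ≠ 0)).card :=
    ⟨v + w, V.add_mem hv w.2, rfl⟩
  have h3 := Nat.le_findGreatest (P := P) (hb (v + (w : κ → F))) hPn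
  rw [← hvn] at h3
  omega

/-- sum over the values of the last coordinate -/
theorem snoc_eq {κ : Type} {d : ℕ} (q : Fin (d + 1) → κ) (x : κ) :
    (∀ i j : Fin (d + 2), (Fin.snoc q x : Fin (d + 2) → κ) i = (Fin.snoc q x : Fin (d + 2) → κ) j) ↔
      (∀ i j, q i = q j) ∧ x = q 0 := by
  constructor
  · intro h
    refine ⟨fun i j => ?_, ?_⟩
    · have := h i.castSucc j.castSucc
      simpa using this
    · have := h (Fin.last _) (0 : Fin (d + 1)).castSucc
      simpa using this
  · rintro ⟨h1, h2⟩ i j
    have key : ∀ i : Fin (d + 2), (Fin.snoc q x : Fin (d + 2) → κ) i = q 0 := by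
      intro i
      refine Fin.lastCases ?_ (fun i => ?_) i
      · simp [h2]
      · simp [h1 i 0]
    rw [key i, key j]

open Classical in
theorem nas (F : Type u) [Field F] : ∀ (d : ℕ) (κ : Type) [Fintype κ] (τ : Type) [Fintype τ]
    (lam : κ → F) (_ : ∀ x, lam x ≠ 0) (S : τ → Finset (Fin (d + 1)))
    (G H : τ → (Fin (d + 1) → κ) → F),
    (∀ j, (S j).Nonempty ∧ S j ≠ univ) →
    (∀ j q q', (∀ i ∈ S j, q i = q' i) → G j q = G j q') →
    (∀ j q q', (∀ i ∉ S j, q i = q' i) → H j q = H j q') →
    (∀ q, (∀ i j, q i = q j) → ∑ j, G j q * H j q = lam (q 0)) →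
    (∀ q, ¬ (∀ i j, q i = q j) → ∑ j, G j q * H j q = 0) →
    Fintype.card κ ≤ Fintype.card τ := by
  intro d
  induction d with
  | zero =>
    intro κ _ τ _ lam hlam S G H hS hG hH heq heq0
    have hτ : IsEmpty τ := by
      constructor
      intro j
      obtain ⟨h1, h2⟩ := hS j
      obtain ⟨i, hi⟩ := h1
      apply h2
      ext i'
      have : i' = i := Fin.ext (by omega)
      rw [this]
      exact ⟨fun _ => mem_univ _, fun _ => hi⟩
    rcases isEmpty_or_nonempty κ with hκ | ⟨⟨x⟩⟩
    · simp
    · exfalso
      have h1 := heq (fun _ => x) (fun _ _ => rfl)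
      rw [Finset.univ_eq_empty, sum_empty] at h1
      exact hlam x h1.symm
  | succ d ih =>
    intro κ _ τ _ lam hlam S G H hS hG hH heq heq0
    set L : Fin (d + 2) := Fin.last (d + 1) with hL
    -- the two types of terms
    set I1 : τ → Prop := fun j => S j = {L} ∨ (S j)ᶜ = {L} with hI1
    set a : τ → κ → F := fun j x => if S j = {L} then G j (fun _ => x) else H j (fun _ => x) with ha
    set Φ : (κ → F) →ₗ[F] ({j // I1 j} → F) :=
      { toFun := fun v j => ∑ x, v x * a j x
        map_add' := by
          intro v w
          funext j
          simp only [Pi.add_apply, add_mul, sum_add_distrib]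
        map_smul' := by
          intro c v
          funext j
          simp only [Pi.smul_apply, smul_eq_mul, RingHom.id_apply, mul_sum, mul_assoc] } with hΦ
    obtain ⟨v, hv, hvcard⟩ := exists_supp (LinearMap.ker Φ)
    have hvΦ : ∀ j : τ, I1 j → ∑ x, v x * a j x = 0 := by
      intro j hj
      have h1 := congrFun (LinearMap.mem_ker.1 hv) ⟨j, hj⟩
      exact h1
    have hdim : Fintype.card κ ≤ Fintype.card {j // I1 j} + Module.finrank F (LinearMap.ker Φ) := by
      have h1 := LinearMap.finrank_range_add_finrank_ker Φ
      rw [Module.finrank_fintype_fun_eq_card] at h1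
      have h2 : Module.finrank F (LinearMap.range Φ) ≤ Fintype.card {j // I1 j} := by
        refine (Submodule.finrank_le _).trans ?_
        rw [Module.finrank_fintype_fun_eq_card]
      omega
    have hfin : ∀ q₁ : Fin (d + 1) → κ, ∑ j : {j // ¬ I1 j},
        (if L ∈ S j then ∑ x, v x * G j (Fin.snoc q₁ x) else G j (Fin.snoc q₁ (q₁ 0))) *
        (if L ∈ S j then H j (Fin.snoc q₁ (q₁ 0)) else ∑ x, v x * H j (Fin.snoc q₁ x)) =
        ∑ x, v x * ∑ j, G j (Fin.snoc q₁ x) * H j (Fin.snoc q₁ x) := by
      intro q₁
      rw [sum_congr rfl (fun x _ => mul_sum _ _ _), sum_comm]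
      -- constant factors
      have hHc : ∀ j, L ∈ S j → ∀ x, H j (Fin.snoc q₁ x) = H j (Fin.snoc q₁ (q₁ 0)) := by
        intro j hj x
        apply hH
        intro i
        refine Fin.lastCases (fun h => absurd hj h) (fun i _ => ?_) i
        simp
      have hGc : ∀ j, L ∉ S j → ∀ x, G j (Fin.snoc q₁ x) = G j (Fin.snoc q₁ (q₁ 0)) := by
        intro j hj x
        apply hG
        intro i
        refine Fin.lastCases (fun h => absurd h hj) (fun i _ => ?_) i
        simp
      have hterm : ∀ j, ∑ x, v x * (G j (Fin.snoc q₁ x) * H j (Fin.snoc q₁ x)) =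
          (if L ∈ S j then ∑ x, v x * G j (Fin.snoc q₁ x) else G j (Fin.snoc q₁ (q₁ 0))) *
          (if L ∈ S j then H j (Fin.snoc q₁ (q₁ 0)) else ∑ x, v x * H j (Fin.snoc q₁ x)) := by
        intro j
        by_cases hj : L ∈ S j
        · rw [if_pos hj, if_pos hj, sum_mul]
          refine sum_congr rfl fun x _ => ?_
          rw [hHc j hj x]; ring
        · rw [if_neg hj, if_neg hj, mul_sum]
          refine sum_congr rfl fun x _ => ?_
          rw [hGc j hj x]; ring
      have hzero : ∀ j, I1 j → ∑ x, v x * (G j (Fin.snoc q₁ x) * H j (Fin.snoc q₁ x)) = 0 := by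
        intro j hj
        have h1 := hvΦ j hj
        rw [hterm]
        rcases hj with hj | hj
        · have hLj : L ∈ S j := by rw [hj]; exact mem_singleton_self _
          rw [if_pos hLj, if_pos hLj]
          have h2 : ∑ x, v x * G j (Fin.snoc q₁ x) = 0 := by
            rw [← h1]
            refine sum_congr rfl fun x _ => ?_
            rw [ha]
            simp only
            rw [if_pos hj]
            congr 1
            apply hG
            intro i hi
            rw [hj, mem_singleton] at hi
            rw [hi, hL]
            simp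
          rw [h2, zero_mul]
        · have hLj : L ∉ S j := by
            have : L ∈ (S j)ᶜ := by rw [hj]; exact mem_singleton_self _
            exact mem_compl.1 this
          have hne : S j ≠ {L} := fun h => hLj (by rw [h]; exact mem_singleton_self _)
          rw [if_neg hLj, if_neg hLj]
          have h2 : ∑ x, v x * H j (Fin.snoc q₁ x) = 0 := by
            rw [← h1]
            refine sum_congr rfl fun x _ => ?_
            rw [ha]
            simp only
            rw [if_neg hne]
            congr 1
            apply hH
            intro i hi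
            have : i ∈ (S j)ᶜ := mem_compl.2 hi
            rw [hj, mem_singleton] at this
            rw [this, hL]
            simp
          rw [h2, mul_zero]
      have hsplit : ∑ j, ∑ x, v x * (G j (Fin.snoc q₁ x) * H j (Fin.snoc q₁ x)) =
          ∑ j : {j // ¬ I1 j}, ∑ x, v x * (G j (Fin.snoc q₁ x) * H j (Fin.snoc q₁ x)) := by
        rw [← Fintype.sum_subtype_add_sum_subtype I1
          (fun j => ∑ x, v x * (G j (Fin.snoc q₁ x) * H j (Fin.snoc q₁ x)))]
        rw [Finset.sum_eq_zero (fun j _ => hzero j.1 j.2), zero_add]
      rw [hsplit]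
      exact sum_congr rfl fun j _ => (hterm j).symm
    -- the contracted decomposition
    have hcore : Fintype.card {x // v x ≠ 0} ≤ Fintype.card {j // ¬ I1 j} := by
      refine ih {x // v x ≠ 0} {j // ¬ I1 j} (fun x => lam x * v x)
        (fun x => mul_ne_zero (hlam _) x.2)
        (fun j => univ.filter (fun i => i.castSucc ∈ S j))
        (fun j q => if L ∈ S j then ∑ x, v x * G j (Fin.snoc (fun i => (q i : κ)) x) else
          G j (Fin.snoc (fun i => (q i : κ)) (q 0 : κ)))
        (fun j q => if L ∈ S j then H j (Fin.snoc (fun i => (q i : κ)) (q 0 : κ)) else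
          ∑ x, v x * H j (Fin.snoc (fun i => (q i : κ)) x)) ?_ ?_ ?_ ?_ ?_
      · rintro ⟨j, hj⟩
        simp only [hI1, not_or] at hj
        obtain ⟨h1, h2⟩ := hS j
        constructor
        · -- an element of `S j` other than the last one
          by_contra hne
          rw [not_nonempty_iff_eq_empty] at hne
          apply hj.1
          obtain ⟨i, hi⟩ := h1
          have hall : ∀ i ∈ S j, i = L := by
            intro i
            refine Fin.lastCases (fun _ => rfl) (fun i hi => ?_) i
            exfalso
            have : i ∈ (univ.filter (fun i => i.castSucc ∈ S j) : Finset (Fin (d + 1))) :=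
              mem_filter.2 ⟨mem_univ _, hi⟩
            rw [hne] at this
            exact absurd this (notMem_empty _)
          ext i'
          rw [mem_singleton]
          constructor
          · exact hall i'
          · rintro rfl
            rw [← hall i hi]; exact hi
        · intro huniv
          apply hj.2
          have hall : ∀ i : Fin (d + 1), i.castSucc ∈ S j := by
            intro i
            have : i ∈ (univ.filter (fun i => i.castSucc ∈ S j) : Finset (Fin (d + 1))) := by
              rw [huniv]; exact mem_univ _
            exact (mem_filter.1 this).2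
          have hLn : L ∉ S j := by
            intro hL'
            apply h2
            ext i
            simp only [mem_univ, iff_true]
            refine Fin.lastCases hL' (fun i => hall i) i
          ext i
          rw [mem_compl, mem_singleton]
          constructor
          · intro hi
            revert hi
            refine Fin.lastCases (fun _ => rfl) (fun i hi => absurd (hall i) hi) i
          · rintro rfl; exact hLn
      · rintro ⟨j, hj⟩ q q' hqq
        simp only
        by_cases hL' : L ∈ S j
        · rw [if_pos hL', if_pos hL']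
          refine sum_congr rfl fun x _ => ?_
          congr 1
          apply hG
          intro i
          refine Fin.lastCases (fun _ => by simp) (fun i hi => ?_) i
          have := hqq i (mem_filter.2 ⟨mem_univ _, hi⟩)
          simp [this]
        · rw [if_neg hL', if_neg hL']
          apply hG
          intro i
          refine Fin.lastCases (fun h => absurd h hL') (fun i hi => ?_) i
          have := hqq i (mem_filter.2 ⟨mem_univ _, hi⟩)
          simp [this]
      · rintro ⟨j, hj⟩ q q' hqq
        simp only
        by_cases hL' : L ∈ S j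
        · rw [if_pos hL', if_pos hL']
          apply hH
          intro i
          refine Fin.lastCases (fun h => absurd hL' h) (fun i hi => ?_) i
          have := hqq i (fun h => hi (mem_filter.1 h).2)
          simp [this]
        · rw [if_neg hL', if_neg hL']
          refine sum_congr rfl fun x _ => ?_
          congr 1
          apply hH
          intro i
          refine Fin.lastCases (fun _ => by simp) (fun i hi => ?_) i
          have := hqq i (fun h => hi (mem_filter.1 h).2)
          simp [this]
      · intro q hq
        show ∑ j : {j // ¬ I1 j},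
          (if L ∈ S j then ∑ x, v x * G j (Fin.snoc (fun i => (q i : κ)) x) else
            G j (Fin.snoc (fun i => (q i : κ)) (q 0 : κ))) *
          (if L ∈ S j then H j (Fin.snoc (fun i => (q i : κ)) (q 0 : κ)) else
            ∑ x, v x * H j (Fin.snoc (fun i => (q i : κ)) x)) = lam (q 0) * v (q 0)
        rw [hfin (fun i => (q i : κ)), Finset.sum_eq_single (q 0 : κ)]
        · rw [heq _ ((snoc_eq _ _).2 ⟨fun i j => by rw [hq i j], rfl⟩)]
          have : (0 : Fin (d + 2)) = (0 : Fin (d + 1)).castSucc := rfl
          rw [this, Fin.snoc_castSucc, mul_comm]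
        · intro x _ hx
          rw [heq0 _ (fun h => hx ((snoc_eq _ _).1 h).2), mul_zero]
        · intro h; exact absurd (mem_univ _) h
      · intro q hq
        show ∑ j : {j // ¬ I1 j},
          (if L ∈ S j then ∑ x, v x * G j (Fin.snoc (fun i => (q i : κ)) x) else
            G j (Fin.snoc (fun i => (q i : κ)) (q 0 : κ))) *
          (if L ∈ S j then H j (Fin.snoc (fun i => (q i : κ)) (q 0 : κ)) else
            ∑ x, v x * H j (Fin.snoc (fun i => (q i : κ)) x)) = 0
        rw [hfin (fun i => (q i : κ))]
        apply sum_eq_zero
        intro x _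
        rw [heq0 _ (fun h => hq (fun i j => Subtype.ext (((snoc_eq _ _).1 h).1 i j))), mul_zero]
    have hs : Fintype.card {x // v x ≠ 0} = (univ.filter (fun x => v x ≠ 0)).card :=
      Fintype.card_subtype _
    have ht := Fintype.card_subtype_compl I1
    have ht2 := Fintype.card_subtype_le I1
    omega

end Pool.Agent.Y860.PR
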