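import Mathlib
import Pool.Agent.Y860.PR.Defs
import Pool.Agent.Y860.PR.Nas

set_option autoImplicit false

/-! Partition rank: bounds by subtensors. -/

namespace Pool.Agent.Y860.PR

open Finset

universe u

variable {F : Type u} [Field F]

theorem form_basis {d : ℕ} {ι : Type} [Fintype ι] [DecidableEq ι] (A : (Fin d → ι) → F)
    (q : Fin d → ι) : form A (fun i x => if x = q i then 1 else 0) = A q := by
  unfold form
  rw [Finset.sum_eq_single q]
  · simp
  · intro I _ hI
    have : ∃ i, I i ≠ q i := by
      by_contra h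
      push Not at h
      exact hI (funext h)
    obtain ⟨i, hi⟩ := this
    rw [Finset.prod_eq_zero (mem_univ i) (if_neg hi), mul_zero]
  · intro h; exact absurd (mem_univ _) h

theorem form_idT {R : Type*} [CommSemiring R] {d : ℕ} {ι : Type} [Fintype ι] [DecidableEq ι]
    (X : Fin (d + 1) → ι → R) :
    form (idT : (Fin (d + 1) → ι) → R) X = ∑ x, ∏ i, X i x := by
  unfold form idT
  have h1 : ∀ I : Fin (d + 1) → ι, ((if ∀ i j, I i = I j then (1 : R) else 0) * ∏ i, X i (I i)) =
      ∑ x, if I = (fun _ => x) then ∏ i, X i x else 0 := by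
    intro I
    by_cases h : ∀ i j, I i = I j
    · rw [if_pos h, one_mul, Finset.sum_eq_single (I 0)]
      · have e : I = fun _ => I 0 := funext fun i => h i 0
        rw [if_pos e]
        exact Finset.prod_congr rfl fun i _ => by rw [h i 0]
      · intro x _ hx
        rw [if_neg]
        intro e
        exact hx (congrFun e 0).symm
      · intro h; exact absurd (mem_univ _) h
    · rw [if_neg h, zero_mul]
      symm
      apply sum_eq_zero
      intro x _
      rw [if_neg]
      rintro rfl
      exact h (fun _ _ => rfl)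
  rw [sum_congr rfl (fun I _ => h1 I), sum_comm]
  refine sum_congr rfl fun x _ => ?_
  rw [Finset.sum_eq_single (fun _ => x)]
  · rw [if_pos rfl]
  · intro I _ hI
    rw [if_neg hI]
  · intro h; exact absurd (mem_univ _) h

theorem prankLE_of_fintype {R : Type*} [CommSemiring R] {d : ℕ} {ι τ : Type} [Fintype ι] [Fintype τ] (A : (Fin d → ι) → R)
    (S : τ → Finset (Fin d)) (g h : τ → (Fin d → ι → R) → R)
    (h1 : ∀ j, (S j).Nonempty ∧ S j ≠ univ)
    (h2 : ∀ j X Y, (∀ i ∈ S j, X i = Y i) → g j X = g j Y)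
    (h3 : ∀ j X Y, (∀ i ∉ S j, X i = Y i) → h j X = h j Y)
    (h4 : ∀ X, form A X = ∑ j, g j X * h j X) : PRankLE A (Fintype.card τ) := by
  obtain ⟨e⟩ : Nonempty (τ ≃ Fin (Fintype.card τ)) := ⟨Fintype.equivFin τ⟩
  refine ⟨fun j => S (e.symm j), fun j => g (e.symm j), fun j => h (e.symm j),
    fun j => h1 _, fun j => h2 _, fun j => h3 _, fun X => ?_⟩
  rw [h4]
  exact (Equiv.sum_comp e.symm (fun j => g j X * h j X)).symm

theorem prankLE_idT {R : Type*} [CommSemiring R] {d : ℕ} {ι : Type} [Fintype ι] [DecidableEq ι] :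
    PRankLE (idT : (Fin (d + 2) → ι) → R) (Fintype.card ι) := by
  refine prankLE_of_fintype _ (fun _ => {0}) (fun x X => X 0 x)
    (fun x X => ∏ i ∈ univ.erase 0, X i x) ?_ ?_ ?_ ?_
  · intro j
    refine ⟨⟨0, mem_singleton_self _⟩, fun h => ?_⟩
    have : (1 : Fin (d + 2)) ∈ ({0} : Finset (Fin (d + 2))) := by rw [h]; exact mem_univ _
    rw [mem_singleton] at this
    exact absurd this (by simp)
  · intro j X Y h
    rw [h 0 (mem_singleton_self _)]
  · intro j X Y h
    refine Finset.prod_congr rfl fun i hi => ?_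
    rw [h i (fun h' => (mem_erase.1 hi).1 (mem_singleton.1 h'))]
  · intro X
    rw [form_idT]
    exact sum_congr rfl fun x _ => (Finset.mul_prod_erase univ (fun i => X i x) (mem_univ 0)).symm

theorem exists_prankLE {R : Type*} [CommSemiring R] {d : ℕ} {ι : Type} [Fintype ι]
    (A : (Fin (d + 2) → ι) → R) : ∃ r, PRankLE A r := by
  classical
  refine ⟨Fintype.card (Fin (d + 2) → ι), prankLE_of_fintype _ (fun _ => {0})
    (fun I X => A I * X 0 (I 0)) (fun I X => ∏ i ∈ univ.erase 0, X i (I i)) ?_ ?_ ?_ ?_⟩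
  · intro j
    refine ⟨⟨0, mem_singleton_self _⟩, fun h => ?_⟩
    have : (1 : Fin (d + 2)) ∈ ({0} : Finset (Fin (d + 2))) := by rw [h]; exact mem_univ _
    rw [mem_singleton] at this
    exact absurd this (by simp)
  · intro j X Y h
    rw [h 0 (mem_singleton_self _)]
  · intro j X Y h
    refine Finset.prod_congr rfl fun i hi => ?_
    rw [h i (fun h' => (mem_erase.1 hi).1 (mem_singleton.1 h'))]
  · intro X
    unfold form
    refine sum_congr rfl fun I _ => ?_
    rw [mul_assoc, Finset.mul_prod_erase univ (fun i => X i (I i)) (mem_univ 0)]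

/-- a tensor containing an identity tensor of side `card κ` has partition rank at least `card κ` -/
theorem card_le_of_sub {d : ℕ} {ι κ : Type} [Fintype ι] [Fintype κ] [DecidableEq κ]
    (A : (Fin (d + 1) → ι) → F) (E : Fin (d + 1) → κ → ι)
    (hE : ∀ q : Fin (d + 1) → κ, A (fun i => E i (q i)) = idT q) {r : ℕ} (hr : PRankLE A r) :
    Fintype.card κ ≤ r := by
  classical
  obtain ⟨S, g, h, h1, h2, h3, h4⟩ := hr
  have h5 := nas F d κ (Fin r) (fun _ => 1) (fun _ => one_ne_zero) S
    (fun j q => g j (fun i x => if x = E i (q i) then 1 else 0))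
    (fun j q => h j (fun i x => if x = E i (q i) then 1 else 0)) h1 (by
      intro j q q' hq
      apply h2
      intro i hi
      rw [hq i hi]) (by
      intro j q q' hq
      apply h3
      intro i hi
      rw [hq i hi]) (by
      intro q hq
      rw [← h4, form_basis, hE, idT, if_pos hq]) (by
      intro q hq
      rw [← h4, form_basis, hE, idT, if_neg hq])
  rwa [Fintype.card_fin] at h5

theorem le_prank_of_sub {d : ℕ} {ι κ : Type} [Fintype ι] [Fintype κ] [DecidableEq κ]
    (A : (Fin (d + 2) → ι) → F) (E : Fin (d + 2) → κ → ι)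
    (hE : ∀ q : Fin (d + 2) → κ, A (fun i => E i (q i)) = idT q) :
    Fintype.card κ ≤ prank A :=
  card_le_of_sub A E hE (Nat.sInf_mem (exists_prankLE A))

theorem prank_le {R : Type*} [CommSemiring R] {d : ℕ} {ι : Type} [Fintype ι]
    {A : (Fin d → ι) → R} {r : ℕ} (h : PRankLE A r) : prank A ≤ r := Nat.sInf_le h

theorem prank_idT {d : ℕ} {ι : Type} [Fintype ι] [DecidableEq ι] :
    prank (idT : (Fin (d + 2) → ι) → F) = Fintype.card ι :=
  le_antisymm (prank_le prankLE_idT) (le_prank_of_sub _ (fun _ x => x) (fun _ => rfl))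

/-- the power of an identity tensor is an identity tensor -/
theorem tpow_idT {R : Type*} [CommSemiring R] {d : ℕ} {ι : Type} [DecidableEq ι] (m : ℕ) :
    tpow (idT : (Fin d → ι) → R) m = idT := by
  funext I
  unfold tpow idT
  by_cases h : ∀ i j, I i = I j
  · rw [if_pos h]
    apply Finset.prod_eq_one
    intro k _
    rw [if_pos]
    intro i j
    show I i k = I j k
    rw [h i j]
  · rw [if_neg h]
    push Not at h
    obtain ⟨i, j, hij⟩ := h
    have : ∃ k, I i k ≠ I j k := by
      by_contra h'
      push Not at h'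
      exact hij (funext h')
    obtain ⟨k, hk⟩ := this
    apply Finset.prod_eq_zero (mem_univ k)
    rw [if_neg]
    intro h'
    exact hk (h' i j)

end Pool.Agent.Y860.PR
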