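import Mathlib
import Pool.Agent.Y860.PR.Defs
import Pool.Agent.Y860.PR.Rank

set_option autoImplicit false

/-! The bias of tensors over `ZMod p`. -/

namespace Pool.Agent.Y860.PR

open Finset

variable {p : ℕ} [Fact p.Prime]

theorem prod_update {R : Type*} [CommSemiring R] {d : ℕ} {ι : Type} (X : Fin d → ι → R)
    (i : Fin d) (v : ι → R) (I : Fin d → ι) :
    ∏ j, (Function.update X i v) j (I j) = v (I i) * ∏ j ∈ univ.erase i, X j (I j) := by
  rw [← Finset.mul_prod_erase univ _ (mem_univ i), Function.update_self]
  congr 1
  refine Finset.prod_congr rfl fun j hj => ?_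
  rw [Function.update_of_ne (mem_erase.1 hj).1]

theorem form_update_add {R : Type*} [CommSemiring R] {d : ℕ} {ι : Type} [Fintype ι]
    (A : (Fin d → ι) → R) (X : Fin d → ι → R) (i : Fin d) (v w : ι → R) :
    form A (Function.update X i (v + w)) = form A (Function.update X i v) +
      form A (Function.update X i w) := by
  unfold form
  rw [← sum_add_distrib]
  refine sum_congr rfl fun I _ => ?_
  rw [prod_update, prod_update, prod_update, Pi.add_apply]
  ring

open Classical in
/-- orthogonality -/
theorem sum_hom {V : Type} [AddCommGroup V] [Fintype V] (f : V →+ ZMod p) :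
    ∑ v, ZMod.stdAddChar (f v) = if (∀ v, f v = 0) then (Fintype.card V : ℂ) else 0 := by
  have h1 := AddChar.sum_eq_ite ((ZMod.stdAddChar (N := p)).compAddMonoidHom f)
  simp only [AddChar.compAddMonoidHom_apply] at h1
  rw [h1]
  by_cases h : ∀ v, f v = 0
  · rw [if_pos h, if_pos]
    ext v
    rw [AddChar.compAddMonoidHom_apply, h v, AddChar.map_zero_eq_one, AddChar.zero_apply]
  · rw [if_neg h, if_neg]
    intro h2
    apply h
    intro v
    have h3 : ((ZMod.stdAddChar (N := p)).compAddMonoidHom f) v = (0 : AddChar V ℂ) v := by rw [h2]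
    rw [AddChar.compAddMonoidHom_apply, AddChar.zero_apply] at h3
    rw [← (ZMod.stdAddChar (N := p)).map_zero_eq_one] at h3
    exact ZMod.injective_stdAddChar h3

/-- the averaging trick -/
theorem sum_update {d : ℕ} {V M : Type} [Fintype V] [AddCommMonoid M] (i : Fin d)
    (φ : (Fin d → V) → M) :
    ∑ X : Fin d → V, ∑ v : V, φ (Function.update X i v) = Fintype.card V • ∑ X, φ X := by
  have h1 : ∑ X : Fin d → V, ∑ v : V, φ (Function.update X i v) =
      ∑ X : Fin d → V, ∑ _v : V, φ X := by
    rw [← Fintype.sum_prod_type', ← Fintype.sum_prod_type']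
    refine Fintype.sum_bijective (fun z : (Fin d → V) × V => (Function.update z.1 i z.2, z.1 i)) ?_ _ _
      (fun z => rfl)
    refine Function.Involutive.bijective ?_
    rintro ⟨X, v⟩
    simp
  rw [h1]
  rw [sum_congr rfl (fun X _ => Finset.sum_const (φ X)), card_univ, ← smul_sum]

/-- the sum of the character values counts the zeros of a functional -/
theorem leg {d : ℕ} {V : Type} [AddCommGroup V] [Fintype V] (f : (Fin d → V) → ZMod p) (i : Fin d)
    (hf : ∀ X v w, f (Function.update X i (v + w)) =
      f (Function.update X i v) + f (Function.update X i w)) :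
    ∑ X, ZMod.stdAddChar (f X) =
      (({X : Fin d → V | ∀ v, f (Function.update X i v) = 0}.ncard : ℕ) : ℂ) := by
  classical
  have h1 := sum_update (V := V) (M := ℂ) i (fun X => ZMod.stdAddChar (f X))
  have h2 : ∀ X : Fin d → V, ∑ v : V, ZMod.stdAddChar (f (Function.update X i v)) =
      if (∀ v, f (Function.update X i v) = 0) then (Fintype.card V : ℂ) else 0 := by
    intro X
    have h := sum_hom (AddMonoidHom.mk' (fun v => f (Function.update X i v)) (hf X))
    refine h.trans ?_
    congr 1
  rw [sum_congr rfl (fun X _ => h2 X), ← sum_filter, sum_const, nsmul_eq_mul, nsmul_eq_mul] at h1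
  have h3 : (Fintype.card V : ℂ) ≠ 0 := by
    have : Fintype.card V ≠ 0 := Fintype.card_ne_zero
    exact_mod_cast this
  have h5 : {X : Fin d → V | ∀ v, f (Function.update X i v) = 0}.ncard =
      (univ.filter (fun X : Fin d → V => ∀ v, f (Function.update X i v) = 0)).card := by
    rw [← Set.ncard_coe_finset]
    congr 1
    ext X
    simp
  rw [h5]
  have h4 : (Fintype.card V : ℂ) * (((univ.filter (fun X : Fin d → V =>
      ∀ v, f (Function.update X i v) = 0)).card : ℕ) : ℂ) =
      (Fintype.card V : ℂ) * ∑ X, ZMod.stdAddChar (f X) := by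
    rw [← h1, mul_comm]
  exact (mul_left_cancel₀ h3 h4).symm

theorem update_comp {d : ℕ} {V : Type} (X : Fin d → V) (i : Fin d) (v : V) (L : Fin d → V → V) :
    (fun j => L j (Function.update X i v j)) = Function.update (fun j => L j (X j)) i (L i v) := by
  funext j
  by_cases h : j = i
  · subst h; simp
  · rw [Function.update_of_ne h, Function.update_of_ne h]

/-- applying a linear map on one leg increases the bias -/
theorem mono_step {d : ℕ} {ι : Type} [Fintype ι] [DecidableEq ι] (A : (Fin d → ι) → ZMod p)
    (L : Fin d → (ι → ZMod p) →+ (ι → ZMod p)) (i : Fin d) (π : (ι → ZMod p) →+ (ι → ZMod p)) :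
    ∃ k k' : ℕ, k ≤ k' ∧
      ∑ X : Fin d → ι → ZMod p, ZMod.stdAddChar (form A (fun j => L j (X j))) = (k : ℂ) ∧
      ∑ X : Fin d → ι → ZMod p, ZMod.stdAddChar (form A (fun j =>
        (Function.update L i ((L i).comp π)) j (X j))) = (k' : ℂ) := by
  have hadd : ∀ (L : Fin d → (ι → ZMod p) →+ (ι → ZMod p)) (X : Fin d → ι → ZMod p)
      (v w : ι → ZMod p), form A (fun j => L j (Function.update X i (v + w) j)) =
      form A (fun j => L j (Function.update X i v j)) +
      form A (fun j => L j (Function.update X i w j)) := by
    intro L X v w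
    rw [update_comp X i (v + w) (fun j => L j), update_comp X i v (fun j => L j),
      update_comp X i w (fun j => L j), map_add, form_update_add]
  refine ⟨_, _, ?_, leg (fun X => form A (fun j => L j (X j))) i (hadd L),
    leg (fun X => form A (fun j => (Function.update L i ((L i).comp π)) j (X j))) i (hadd _)⟩
  apply Set.ncard_le_ncard _ (Set.toFinite _)
  intro X hX v
  have h1 := hX (π v)
  rw [update_comp X i (π v) (fun j => L j)] at h1
  have h2 : (fun j => (Function.update L i ((L i).comp π)) j (Function.update X i v j)) =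
      Function.update (fun j => L j (X j)) i (L i (π v)) := by
    funext j
    by_cases h : j = i
    · subst h
      simp
    · rw [Function.update_of_ne h, Function.update_of_ne h, Function.update_of_ne h]
  rw [h2]
  exact h1

end Pool.Agent.Y860.PR
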