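import Mathlib
import Pool.Agent.Y860.PR.Bias

set_option autoImplicit false

/-! The bias decreases with large identity subtensors. -/

namespace Pool.Agent.Y860.PR

open Finset

variable {p : ℕ} [Fact p.Prime]

open Classical in
/-- restriction to the coordinates in the range of `E` -/
noncomputable def restr {ι κ : Type} (E : κ → ι) : (ι → ZMod p) →+ (ι → ZMod p) where
  toFun v := fun x => if x ∈ Set.range E then v x else 0
  map_zero' := by
    funext x
    split_ifs <;> rfl
  map_add' v w := by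
    funext x
    simp only [Pi.add_apply]
    split_ifs
    · rfl
    · rw [add_zero]

open Classical in
theorem restr_of_mem {ι κ : Type} (E : κ → ι) (v : ι → ZMod p) {x : ι} (hx : x ∈ Set.range E) :
    restr E v x = v x := by
  show (if x ∈ Set.range E then v x else 0) = v x
  exact if_pos hx

open Classical in
theorem restr_of_notMem {ι κ : Type} (E : κ → ι) (v : ι → ZMod p) {x : ι}
    (hx : x ∉ Set.range E) : restr E v x = 0 := by
  show (if x ∈ Set.range E then v x else 0) = 0
  exact if_neg hx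

theorem chain {d : ℕ} {ι κ : Type} [Fintype ι] [DecidableEq ι] (A : (Fin (d + 1) → ι) → ZMod p)
    (E : Fin (d + 1) → κ → ι) : ∃ k k' : ℕ, k ≤ k' ∧
      ∑ X : Fin (d + 1) → ι → ZMod p, ZMod.stdAddChar (form A X) = (k : ℂ) ∧
      ∑ X : Fin (d + 1) → ι → ZMod p, ZMod.stdAddChar (form A (fun j => restr (E j) (X j))) =
        (k' : ℂ) := by
  classical
  obtain ⟨L, hL⟩ : ∃ L : Finset (Fin (d + 1)) → Fin (d + 1) → (ι → ZMod p) →+ (ι → ZMod p),
      ∀ R j, L R j = if j ∈ R then restr (E j) else AddMonoidHom.id _ := ⟨_, fun _ _ => rfl⟩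
  have key : ∀ R : Finset (Fin (d + 1)), ∃ k k' : ℕ, k ≤ k' ∧
      ∑ X : Fin (d + 1) → ι → ZMod p, ZMod.stdAddChar (form A X) = (k : ℂ) ∧
      ∑ X : Fin (d + 1) → ι → ZMod p, ZMod.stdAddChar (form A (fun j => L R j (X j))) =
        (k' : ℂ) := by
    intro R
    induction R using Finset.induction_on with
    | empty =>
      obtain ⟨k, _, _, h1, _⟩ := mono_step A (fun _ => AddMonoidHom.id _) 0 (AddMonoidHom.id _)
      have h1' : ∑ X : Fin (d + 1) → ι → ZMod p, ZMod.stdAddChar (form A X) = (k : ℂ) := h1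
      refine ⟨k, k, le_rfl, h1', ?_⟩
      have h0 : ∀ X : Fin (d + 1) → ι → ZMod p, (fun j => L ∅ j (X j)) = X := by
        intro X
        funext j
        rw [hL, if_neg (notMem_empty j)]
        rfl
      rw [← h1']
      exact sum_congr rfl fun X _ => by rw [h0 X]
    | insert i R hi ih =>
      obtain ⟨k, k', hkk, h1, h2⟩ := ih
      obtain ⟨k1, k2, h12, h3, h4⟩ := mono_step A (L R) i (restr (E i))
      have e1 : k' = k1 := Nat.cast_injective (R := ℂ) (h2.symm.trans h3)
      refine ⟨k, k2, by omega, h1, ?_⟩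
      have h0 : (Function.update (L R) i ((L R i).comp (restr (E i)))) = L (insert i R) := by
        funext j
        by_cases h : j = i
        · subst h
          rw [Function.update_self, hL, hL, if_pos (mem_insert_self _ _), if_neg hi]
          rfl
        · rw [Function.update_of_ne h, hL, hL]
          by_cases h' : j ∈ R
          · rw [if_pos (mem_insert_of_mem h'), if_pos h']
          · rw [if_neg (fun h'' => h' ((mem_insert.1 h'').resolve_left h)), if_neg h']
      rw [h0] at h4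
      exact h4
  obtain ⟨k, k', hkk, h1, h2⟩ := key univ
  refine ⟨k, k', hkk, h1, ?_⟩
  have h0 : ∀ X : Fin (d + 1) → ι → ZMod p, (fun j => L univ j (X j)) =
      (fun j => restr (E j) (X j)) := by
    intro X
    funext j
    rw [hL, if_pos (mem_univ j)]
  rw [← h2]
  exact sum_congr rfl fun X _ => by rw [h0 X]

theorem form_restr {d : ℕ} {ι κ : Type} [Fintype ι] [Fintype κ] [DecidableEq κ]
    (A : (Fin d → ι) → ZMod p) (E : Fin d → κ → ι) (hE : ∀ j, Function.Injective (E j))
    (hA : ∀ q : Fin d → κ, A (fun i => E i (q i)) = idT q) (X : Fin d → ι → ZMod p) :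
    form A (fun j => restr (E j) (X j)) =
      form (idT : (Fin d → κ) → ZMod p) (fun j x => X j (E j x)) := by
  classical
  unfold form
  have h1 : ∀ q : Fin d → κ, (idT q : ZMod p) * ∏ i, X i (E i (q i)) =
      (fun I : Fin d → ι => A I * ∏ i, (restr (E i) (X i)) (I i)) (fun i => E i (q i)) := by
    intro q
    simp only
    rw [hA]
    congr 1
    refine Finset.prod_congr rfl fun i _ => ?_
    exact (restr_of_mem (E i) (X i) ⟨q i, rfl⟩).symm
  rw [sum_congr rfl (fun q _ => h1 q)]
  have hinj : Function.Injective (fun (q : Fin d → κ) (i : Fin d) => E i (q i)) := by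
    intro q q' h
    funext i
    exact hE i (congrFun h i)
  rw [← Finset.sum_image (s := univ) (g := fun (q : Fin d → κ) (i : Fin d) => E i (q i))
    (f := fun I : Fin d → ι => A I * ∏ i, (restr (E i) (X i)) (I i)) (hinj.injOn)]
  symm
  apply Finset.sum_subset (subset_univ _)
  intro I _ hI
  have : ∃ i, I i ∉ Set.range (E i) := by
    by_contra h
    push Not at h
    apply hI
    choose q hq using h
    exact mem_image.2 ⟨q, mem_univ _, funext hq⟩
  obtain ⟨i, hi⟩ := this
  have h2 : (restr (E i) (X i) : ι → ZMod p) (I i) = 0 := restr_of_notMem (E i) (X i) hi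
  show A I * ∏ i, (restr (E i) (X i)) (I i) = 0
  rw [Finset.prod_eq_zero (mem_univ i) h2, mul_zero]

/-- uniform fibres -/
theorem sum_surj {G H : Type} [AddCommGroup G] [AddCommGroup H] [Fintype G] [Fintype H]
    (f : G →+ H) (hf : Function.Surjective f) (φ : H → ℂ) :
    (Fintype.card H : ℂ) * ∑ g, φ (f g) = (Fintype.card G : ℂ) * ∑ h, φ h := by
  classical
  obtain ⟨c, hc⟩ : ∃ c : ℕ, c = (univ.filter (fun g => f g = 0)).card := ⟨_, rfl⟩
  have hfib : ∀ h : H, (univ.filter (fun g => f g = h)).card = c := by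
    intro h
    rw [hc]
    exact AddMonoidHom.card_fiber_eq_of_mem_range f (hf h) (hf 0)
  have h1 : ∑ g, φ (f g) = c * ∑ h, φ h := by
    rw [← Finset.sum_fiberwise univ (fun g => f g) (fun g => φ (f g)), mul_sum]
    refine sum_congr rfl fun h _ => ?_
    rw [Finset.sum_congr rfl (g := fun _ => φ h) (fun g hg => by rw [(mem_filter.1 hg).2]),
      sum_const, hfib, nsmul_eq_mul]
  have h2 : Fintype.card G = Fintype.card H * c := by
    rw [← card_univ, card_eq_sum_card_fiberwise (f := fun g => f g) (t := univ)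
      (fun g _ => mem_univ _), sum_congr rfl (fun h _ => hfib h), sum_const, card_univ, smul_eq_mul]
  rw [h1, h2]
  push_cast
  ring

theorem sum_restr {d : ℕ} {ι κ : Type} [Fintype ι] [Fintype κ] [DecidableEq κ] [DecidableEq ι]
    (A : (Fin d → ι) → ZMod p) (E : Fin d → κ → ι) (hE : ∀ j, Function.Injective (E j))
    (hA : ∀ q : Fin d → κ, A (fun i => E i (q i)) = idT q) :
    (Fintype.card (Fin d → κ → ZMod p) : ℂ) *
      ∑ X : Fin d → ι → ZMod p, ZMod.stdAddChar (form A (fun j => restr (E j) (X j))) =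
    (Fintype.card (Fin d → ι → ZMod p) : ℂ) *
      ∑ Z : Fin d → κ → ZMod p, ZMod.stdAddChar (form (idT : (Fin d → κ) → ZMod p) Z) := by
  classical
  rw [sum_congr rfl (fun X _ => by rw [form_restr A E hE hA X])]
  refine sum_surj (G := Fin d → ι → ZMod p) (H := Fin d → κ → ZMod p)
    (AddMonoidHom.mk' (fun X j x => X j (E j x)) (fun X Y => rfl)) ?_
    (fun Z => ZMod.stdAddChar (form (idT : (Fin d → κ) → ZMod p) Z))
  intro Z
  refine ⟨fun j y => if h : ∃ x, E j x = y then Z j h.choose else 0, ?_⟩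
  funext j x
  show (if h : ∃ x', E j x' = E j x then Z j h.choose else 0) = Z j x
  rw [dif_pos ⟨x, rfl⟩]
  congr 1
  exact hE j (Exists.choose_spec (⟨x, rfl⟩ : ∃ x', E j x' = E j x))

theorem stdAddChar_sum {κ : Type} (s : Finset κ) (f : κ → ZMod p) :
    ZMod.stdAddChar (∑ x ∈ s, f x) = ∏ x ∈ s, ZMod.stdAddChar (f x) := by
  classical
  induction s using Finset.induction_on with
  | empty => rw [sum_empty, prod_empty, AddChar.map_zero_eq_one]
  | insert x s hx ih => rw [sum_insert hx, prod_insert hx, AddChar.map_add_eq_mul, ih]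

/-- the sum for the identity tensor is a power -/
theorem sum_idT {d : ℕ} {κ : Type} [Fintype κ] [DecidableEq κ] :
    ∑ Z : Fin (d + 1) → κ → ZMod p, ZMod.stdAddChar (form (idT : (Fin (d + 1) → κ) → ZMod p) Z) =
      (∑ z : Fin (d + 1) → ZMod p, ZMod.stdAddChar (∏ i, z i)) ^ Fintype.card κ := by
  have h1 : ∀ Z : Fin (d + 1) → κ → ZMod p,
      ZMod.stdAddChar (form (idT : (Fin (d + 1) → κ) → ZMod p) Z) =
        ∏ x : κ, ZMod.stdAddChar (∏ i, Z i x) := by
    intro Z
    rw [form_idT]
    exact stdAddChar_sum _ _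
  rw [sum_congr rfl (fun Z _ => h1 Z)]
  have h2 : ∑ Z : Fin (d + 1) → κ → ZMod p, ∏ x : κ, ZMod.stdAddChar (∏ i, Z i x) =
      ∑ Z : κ → Fin (d + 1) → ZMod p, ∏ x : κ, ZMod.stdAddChar (∏ i, Z x i) :=
    Fintype.sum_equiv (Equiv.piComm (fun _ _ => ZMod p)) _ _ (fun Z => rfl)
  rw [h2, ← card_univ, ← Finset.prod_const, Finset.prod_univ_sum, Fintype.piFinset_univ]

theorem one_dim (d : ℕ) : ∃ k : ℕ, 0 < k ∧ k < p ^ (d + 2) ∧
    ∑ z : Fin (d + 2) → ZMod p, ZMod.stdAddChar (∏ i, z i) = (k : ℂ) := by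
  have hup : ∀ (z : Fin (d + 2) → ZMod p) (v : ZMod p),
      ∏ i, Function.update z 0 v i = v * ∏ i ∈ univ.erase 0, z i := by
    intro z v
    rw [← Finset.mul_prod_erase univ _ (mem_univ (0 : Fin (d + 2))), Function.update_self]
    congr 1
    refine Finset.prod_congr rfl fun j hj => ?_
    rw [Function.update_of_ne (mem_erase.1 hj).1]
  have h1 := leg (p := p) (V := ZMod p) (fun z : Fin (d + 2) → ZMod p => ∏ i, z i) 0 (by
    intro z v w
    rw [hup, hup, hup]
    ring)
  refine ⟨_, ?_, ?_, h1⟩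
  · rw [Set.ncard_pos (Set.toFinite _)]
    refine ⟨fun _ => 0, fun v => ?_⟩
    rw [hup, Finset.prod_eq_zero (i := (1 : Fin (d + 2))) (mem_erase.2 ⟨by simp, mem_univ _⟩) rfl,
      mul_zero]
  · have h2 : (Set.univ : Set (Fin (d + 2) → ZMod p)).ncard = p ^ (d + 2) := by
      rw [Set.ncard_univ, Nat.card_eq_fintype_card, Fintype.card_fun, ZMod.card, Fintype.card_fin]
    rw [← h2]
    apply Set.ncard_lt_ncard _ (Set.toFinite _)
    rw [Set.ssubset_univ_iff]
    intro h
    have h3 : (fun _ => 1 : Fin (d + 2) → ZMod p) ∈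
      {X : Fin (d + 2) → ZMod p | ∀ v, ∏ i, Function.update X 0 v i = 0} := by
      rw [h]; exact Set.mem_univ _
    have h4 := h3 1
    rw [hup] at h4
    simp at h4

theorem exists_beta (p : ℕ) [Fact p.Prime] (d : ℕ) : ∃ β : ℝ, 0 < β ∧ β < 1 ∧
    (∀ (κ : Type) [Fintype κ] [DecidableEq κ],
      bias (idT : (Fin (d + 2) → κ) → ZMod p) = ((β ^ Fintype.card κ : ℝ) : ℂ)) ∧
    (∀ (ι κ : Type) [Fintype ι] [DecidableEq ι] [Fintype κ] [DecidableEq κ]
      (A : (Fin (d + 2) → ι) → ZMod p) (E : Fin (d + 2) → κ → ι),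
      (∀ q : Fin (d + 2) → κ, A (fun i => E i (q i)) = idT q) →
      0 < (bias A).re ∧ (bias A).re ≤ β ^ Fintype.card κ) := by
  obtain ⟨k, hk0, hk1, hk⟩ := one_dim (p := p) d
  have hp : (0 : ℝ) < (p : ℝ) ^ (d + 2) := by
    have : 0 < p := (Fact.out : p.Prime).pos
    positivity
  obtain ⟨β, hβ⟩ : ∃ β : ℝ, β = k / (p : ℝ) ^ (d + 2) := ⟨_, rfl⟩
  have hβ0 : 0 < β := by rw [hβ]; exact div_pos (by exact_mod_cast hk0) hp
  have hβ1 : β < 1 := by
    rw [hβ, div_lt_one hp]
    exact_mod_cast hk1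
  have hid : ∀ (κ : Type) [Fintype κ] [DecidableEq κ],
      bias (idT : (Fin (d + 2) → κ) → ZMod p) = ((β ^ Fintype.card κ : ℝ) : ℂ) := by
    intro κ _ _
    unfold bias
    rw [sum_idT, hk]
    have e1 : (Fintype.card (Fin (d + 2) → κ → ZMod p) : ℂ) =
        ((p : ℂ) ^ (d + 2)) ^ Fintype.card κ := by
      rw [Fintype.card_fun, Fintype.card_fun, ZMod.card, Fintype.card_fin]
      push_cast
      rw [← pow_mul, ← pow_mul, mul_comm]
    rw [e1, ← div_pow, hβ]
    push_cast
    rfl
  refine ⟨β, hβ0, hβ1, hid, ?_⟩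
  intro ι κ _ _ _ _ A E hA
  classical
  -- the maps are injective
  have hE : ∀ j, Function.Injective (E j) := by
    intro j x y hxy
    by_contra hne
    have h1 := hA (fun _ => x)
    have h2 := hA (Function.update (fun _ => x) j y)
    have h3 : (fun i => E i (Function.update (fun _ => x) j y i)) = fun i => E i x := by
      funext i
      by_cases h : i = j
      · subst h; rw [Function.update_self, hxy]
      · rw [Function.update_of_ne h]
    rw [h3, h1] at h2
    unfold idT at h2
    rw [if_pos (fun _ _ => rfl), if_neg] at h2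
    · exact one_ne_zero h2
    · intro h
      obtain ⟨i, hi⟩ : ∃ i : Fin (d + 2), i ≠ j := exists_ne j
      have h4 := h i j
      rw [Function.update_of_ne hi, Function.update_self] at h4
      exact hne h4
  obtain ⟨k1, k2, h12, h1, h2⟩ := chain A E
  have h3 := sum_restr A E hE hA
  rw [h2] at h3
  have h4 := hid κ
  unfold bias at h4
  have hNκ : (Fintype.card (Fin (d + 2) → κ → ZMod p) : ℂ) ≠ 0 := by
    have : Fintype.card (Fin (d + 2) → κ → ZMod p) ≠ 0 := Fintype.card_ne_zero
    exact_mod_cast this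
  have hNι : (Fintype.card (Fin (d + 2) → ι → ZMod p) : ℂ) ≠ 0 := by
    have : Fintype.card (Fin (d + 2) → ι → ZMod p) ≠ 0 := Fintype.card_ne_zero
    exact_mod_cast this
  have hNιr : (0 : ℝ) < (Fintype.card (Fin (d + 2) → ι → ZMod p) : ℝ) := by
    have : 0 < Fintype.card (Fin (d + 2) → ι → ZMod p) := Fintype.card_pos
    exact_mod_cast this
  have h5 : (k2 : ℂ) / (Fintype.card (Fin (d + 2) → ι → ZMod p) : ℂ) =
      ((β ^ Fintype.card κ : ℝ) : ℂ) := by
    rw [← h4, div_eq_div_iff hNι hNκ, mul_comm, h3, mul_comm]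
  have h6 : (k2 : ℝ) / (Fintype.card (Fin (d + 2) → ι → ZMod p) : ℝ) = β ^ Fintype.card κ := by
    apply Complex.ofReal_injective
    rw [Complex.ofReal_div, Complex.ofReal_natCast, Complex.ofReal_natCast]
    exact h5
  have h7 : bias A = (((k1 : ℝ) / (Fintype.card (Fin (d + 2) → ι → ZMod p) : ℝ) : ℝ) : ℂ) := by
    unfold bias
    rw [h1]
    push_cast
    rfl
  have hk1 : 0 < k1 := by
    have h8 := leg (p := p) (V := ι → ZMod p) (fun X : Fin (d + 2) → ι → ZMod p => form A X) 0
      (fun X v w => form_update_add A X 0 v w)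
    rw [h1] at h8
    have h9 := Nat.cast_injective (R := ℂ) h8
    rw [h9, Set.ncard_pos (Set.toFinite _)]
    refine ⟨fun _ _ => 0, fun v => ?_⟩
    unfold form
    apply sum_eq_zero
    intro I _
    rw [prod_update, Finset.prod_eq_zero (i := (1 : Fin (d + 2)))
      (mem_erase.2 ⟨by simp, mem_univ _⟩) rfl, mul_zero, mul_zero]
  rw [h7, Complex.ofReal_re]
  constructor
  · exact div_pos (by exact_mod_cast hk1) hNιr
  · rw [← h6]
    exact div_le_div_of_nonneg_right (by exact_mod_cast h12) hNιr.le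

end Pool.Agent.Y860.PR
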