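import Mathlib
import Pool.Agent.Y860.PR.Comb
import Pool.Agent.Y860.PR.Rank

set_option autoImplicit false

/-! The tensor `(x₁·x₂)(x₃·…·x_d) + (y₂·y₃)(y₁·y₄·…·y_d)`. -/

namespace Pool.Agent.Y860.PR

open Finset

open Classical in
/-- the tensor with support `TP` -/
noncomputable def cyc (R : Type*) [CommSemiring R] (a e : ℕ) : (Fin (e + 4) → Bool × Fin a) → R :=
  fun I => if TP I then 1 else 0

/-- the legs in the first group -/
def gs (e : ℕ) (b : Bool) : Finset (Fin (e + 4)) := univ.filter (fun i => grp b i = true)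

theorem form_cyc {R : Type*} [CommSemiring R] {a e : ℕ} (X : Fin (e + 4) → Bool × Fin a → R) :
    form (cyc R a e) X = ∑ b : Bool, (∑ u, ∏ i ∈ gs e b, X i (b, u)) *
      (∑ v, ∏ i ∈ (gs e b)ᶜ, X i (b, v)) := by
  classical
  obtain ⟨r1, hr1⟩ : ∃ r : Fin (e + 4), r.val = 1 := ⟨⟨1, by omega⟩, rfl⟩
  obtain ⟨r3, hr3⟩ : ∃ r : Fin (e + 4), r.val = 3 := ⟨⟨3, by omega⟩, rfl⟩
  have hg1 : ∀ b, grp b r1 = true := by
    intro b; cases b <;> simp [grp, hr1]
  have hg3 : ∀ b, grp b r3 = false := by
    intro b; cases b <;> simp [grp, hr3]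
  obtain ⟨J, hJ⟩ : ∃ J : Bool × Fin a × Fin a → (Fin (e + 4) → Bool × Fin a),
      ∀ z i, J z i = (z.1, if grp z.1 i = true then z.2.1 else z.2.2) := ⟨_, fun _ _ => rfl⟩
  have hJT : ∀ z, TP (J z) := by
    intro z i j
    rw [hJ, hJ]
    refine ⟨rfl, fun h => ?_⟩
    simp only at h ⊢
    rw [h]
  have hJinj : ∀ z z', J z = J z' → z = z' := by
    intro z z' h
    have h1 := congrFun h r1
    have h3 := congrFun h r3
    rw [hJ, hJ, hg1, hg1, if_pos rfl, if_pos rfl] at h1
    rw [hJ, hJ, hg3, hg3] at h3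
    simp only [Prod.mk.injEq] at h1 h3
    exact Prod.ext h1.1 (Prod.ext h1.2 h3.2)
  have hTJ : ∀ I, TP I → I = J ((I r1).1, (I r1).2, (I r3).2) := by
    intro I hI
    funext i
    rw [hJ]
    have h1 := hI i r1
    have h3 := hI i r3
    refine Prod.ext h1.1 ?_
    simp only
    by_cases hg : grp (I r1).1 i = true
    · rw [if_pos hg]
      apply h1.2
      rw [h1.1, hg, hg1]
    · rw [if_neg hg]
      apply h3.2
      rw [h1.1, hg3]
      simpa using hg
  have e1 : form (cyc R a e) X = ∑ z : Bool × Fin a × Fin a, ∏ i, X i (J z i) := by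
    unfold form cyc
    have h1 : ∀ I : Fin (e + 4) → Bool × Fin a, (if TP I then (1 : R) else 0) * ∏ i, X i (I i) =
        ∑ z, if I = J z then ∏ i, X i (J z i) else 0 := by
      intro I
      by_cases hI : TP I
      · rw [if_pos hI, one_mul, Finset.sum_eq_single ((I r1).1, (I r1).2, (I r3).2)]
        · rw [if_pos (hTJ I hI), ← hTJ I hI]
        · intro z _ hz
          rw [if_neg]
          intro h
          apply hz
          apply hJinj
          rw [← h]
          exact hTJ I hI
        · intro h; exact absurd (mem_univ _) h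
      · rw [if_neg hI, zero_mul]
        symm
        apply sum_eq_zero
        intro z _
        rw [if_neg]
        rintro rfl
        exact hI (hJT z)
    rw [sum_congr rfl (fun I _ => h1 I), sum_comm]
    refine sum_congr rfl fun z _ => ?_
    rw [Finset.sum_eq_single (J z)]
    · rw [if_pos rfl]
    · intro I _ hI
      rw [if_neg hI]
    · intro h; exact absurd (mem_univ _) h
  rw [e1, Fintype.sum_prod_type]
  refine sum_congr rfl fun b _ => ?_
  rw [Fintype.sum_prod_type, sum_mul_sum]
  refine sum_congr rfl fun u _ => sum_congr rfl fun v _ => ?_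
  have e2 : (gs e b)ᶜ = univ.filter (fun i => ¬ grp b i = true) := by
    ext i
    simp [gs]
  rw [e2, gs, ← Finset.prod_filter_mul_prod_filter_not univ (fun i => grp b i = true)]
  congr 1
  · refine Finset.prod_congr rfl fun i hi => ?_
    rw [hJ, if_pos (mem_filter.1 hi).2]
  · refine Finset.prod_congr rfl fun i hi => ?_
    rw [hJ, if_neg (mem_filter.1 hi).2]

theorem gs_proper (e : ℕ) (b : Bool) : (gs e b).Nonempty ∧ gs e b ≠ univ := by
  constructor
  · refine ⟨⟨1, by omega⟩, ?_⟩
    rw [gs, mem_filter]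
    cases b <;> simp [grp]
  · intro h
    have : (⟨3, by omega⟩ : Fin (e + 4)) ∈ gs e b := by rw [h]; exact mem_univ _
    rw [gs, mem_filter] at this
    cases b <;> simp [grp] at this

theorem prankLE_cyc {R : Type*} [CommSemiring R] (a e : ℕ) : PRankLE (cyc R a e) 2 := by
  have h := prankLE_of_fintype (cyc R a e) (fun b : Bool => gs e b)
    (fun b X => ∑ u, ∏ i ∈ gs e b, X i (b, u)) (fun b X => ∑ v, ∏ i ∈ (gs e b)ᶜ, X i (b, v))
    (gs_proper e) (by
      intro b X Y h
      refine sum_congr rfl fun u _ => Finset.prod_congr rfl fun i hi => ?_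
      rw [h i hi]) (by
      intro b X Y h
      refine sum_congr rfl fun u _ => Finset.prod_congr rfl fun i hi => ?_
      rw [h i (mem_compl.1 hi)]) form_cyc
  rwa [Fintype.card_bool] at h

/-- relabelling of the index set -/
theorem form_relabel {R : Type*} [CommSemiring R] {d : ℕ} {ι ι' : Type} [Fintype ι] [Fintype ι']
    (ε : ι ≃ ι') (A : (Fin d → ι) → R) (X : Fin d → ι' → R) :
    form (fun I => A (fun i => ε.symm (I i))) X = form A (fun i x => X i (ε x)) := by
  classical
  unfold form
  refine (Fintype.sum_equiv (Equiv.arrowCongr (Equiv.refl (Fin d)) ε) _ _ fun I => ?_).symm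
  simp

theorem prankLE_relabel {R : Type*} [CommSemiring R] {d : ℕ} {ι ι' : Type} [Fintype ι] [Fintype ι']
    (ε : ι ≃ ι') (A : (Fin d → ι) → R) {r : ℕ} (h : PRankLE A r) :
    PRankLE (fun I => A (fun i => ε.symm (I i))) r := by
  obtain ⟨S, g, h, h1, h2, h3, h4⟩ := h
  refine ⟨S, fun j X => g j (fun i x => X i (ε x)), fun j X => h j (fun i x => X i (ε x)), h1, ?_, ?_, ?_⟩
  · intro j X Y hXY
    apply h2
    intro i hi
    rw [hXY i hi]
  · intro j X Y hXY
    apply h3
    intro i hi
    rw [hXY i hi]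
  · intro X
    rw [form_relabel, h4]

theorem tpow_cyc {R : Type*} [CommSemiring R] {a e m : ℕ} {κ : Type} [DecidableEq κ]
    (E : Fin (e + 4) → κ → (Fin m → Bool × Fin a))
    (hE : ∀ q : Fin (e + 4) → κ, (∀ k, TP (fun r => E r (q r) k)) ↔ ∀ r s, q r = q s)
    (q : Fin (e + 4) → κ) : tpow (cyc R a e) m (fun r => E r (q r)) = idT q := by
  classical
  unfold tpow cyc idT
  by_cases h : ∀ r s, q r = q s
  · rw [if_pos h]
    apply Finset.prod_eq_one
    intro k _
    rw [if_pos ((hE q).2 h k)]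
  · rw [if_neg h]
    have : ∃ k, ¬ TP (fun r => E r (q r) k) := by
      by_contra h'
      push Not at h'
      exact h ((hE q).1 h')
    obtain ⟨k, hk⟩ := this
    apply Finset.prod_eq_zero (mem_univ k)
    rw [if_neg hk]

end Pool.Agent.Y860.PR
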