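import Mathlib
import Pool.Agent.Y860.PR.Bias2
import Pool.Agent.Y860.PR.Tensor

set_option autoImplicit false

/-! The bias of the tensor `cyc` is at least `p⁻²`. -/

namespace Pool.Agent.Y860.PR

open Finset

variable {p : ℕ} [Fact p.Prime]

theorem ker_bound {V : Type} [AddCommGroup V] [Fintype V] (φ : V →+ ZMod p × ZMod p) :
    Fintype.card V ≤ p ^ 2 * {w | φ w = 0}.ncard := by
  classical
  have hk : {w | φ w = 0}.ncard = (univ.filter (fun w => φ w = 0)).card := by
    rw [← Set.ncard_coe_finset]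
    congr 1
    ext X
    simp
  rw [hk]
  have hfib : ∀ y : ZMod p × ZMod p, (univ.filter (fun w => φ w = y)).card ≤
      (univ.filter (fun w => φ w = 0)).card := by
    intro y
    by_cases hy : y ∈ Set.range φ
    · rw [AddMonoidHom.card_fiber_eq_of_mem_range φ hy ⟨0, map_zero φ⟩]
    · have : univ.filter (fun w => φ w = y) = ∅ := by
        rw [filter_eq_empty_iff]
        intro w _ h
        exact hy ⟨w, h⟩
      rw [this, card_empty]
      exact Nat.zero_le _
  calc Fintype.card V = (univ : Finset V).card := card_univ.symm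
    _ = ∑ y : ZMod p × ZMod p, (univ.filter (fun w => φ w = y)).card :=
      card_eq_sum_card_fiberwise (f := fun w => φ w) (t := univ) (fun w _ => mem_univ _)
    _ ≤ ∑ _y : ZMod p × ZMod p, (univ.filter (fun w => φ w = 0)).card :=
      sum_le_sum fun y _ => hfib y
    _ = p ^ 2 * (univ.filter (fun w => φ w = 0)).card := by
      rw [sum_const, card_univ, Fintype.card_prod, ZMod.card, smul_eq_mul, sq]

theorem two_forms {d : ℕ} {V : Type} [AddCommGroup V] [Fintype V] (P Q : (Fin d → V) → ZMod p)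
    (i : Fin d)
    (hP : ∀ X v w, P (Function.update X i (v + w)) =
      P (Function.update X i v) + P (Function.update X i w))
    (hQ : ∀ X v w, Q (Function.update X i (v + w)) =
      Q (Function.update X i v) + Q (Function.update X i w)) :
    Fintype.card (Fin d → V) ≤ p ^ 2 * {X | P X = 0 ∧ Q X = 0}.ncard := by
  classical
  have h1 := sum_update (V := V) (M := ℕ) i (fun X => if P X = 0 ∧ Q X = 0 then 1 else 0)
  have h2 : ∀ X : Fin d → V, Fintype.card V ≤
      p ^ 2 * ∑ v : V, (if P (Function.update X i v) = 0 ∧ Q (Function.update X i v) = 0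
        then 1 else 0) := by
    intro X
    have h3 := ker_bound (p := p) (AddMonoidHom.mk' (fun v => (P (Function.update X i v),
      Q (Function.update X i v))) (by
        intro v w
        rw [hP X v w, hQ X v w]
        rfl))
    refine h3.trans (le_of_eq ?_)
    rw [← sum_filter, sum_const, smul_eq_mul, mul_one, ← Set.ncard_coe_finset]
    congr 2
    ext v
    simp
  have h4 : ∑ X : Fin d → V, (if P X = 0 ∧ Q X = 0 then 1 else 0) =
      {X | P X = 0 ∧ Q X = 0}.ncard := by
    rw [← sum_filter, sum_const, smul_eq_mul, mul_one, ← Set.ncard_coe_finset]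
    congr 1
    ext v
    simp
  rw [h4, smul_eq_mul] at h1
  have h5 : 0 < Fintype.card V := Fintype.card_pos
  refine Nat.le_of_mul_le_mul_left ?_ h5
  calc Fintype.card V * Fintype.card (Fin d → V) = ∑ _X : Fin d → V, Fintype.card V := by
        rw [sum_const, card_univ, smul_eq_mul, mul_comm]
    _ ≤ ∑ X : Fin d → V, p ^ 2 * ∑ v : V, (if P (Function.update X i v) = 0 ∧
          Q (Function.update X i v) = 0 then 1 else 0) := sum_le_sum fun X _ => h2 X
    _ = p ^ 2 * (Fintype.card V * {X | P X = 0 ∧ Q X = 0}.ncard) := by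
        rw [← mul_sum, h1]
    _ = Fintype.card V * (p ^ 2 * {X | P X = 0 ∧ Q X = 0}.ncard) := by ring

theorem add_leg {R : Type*} [CommSemiring R] {d : ℕ} {ι κ : Type} [Fintype κ] (s : Finset (Fin d))
    (i : Fin d) (hi : i ∈ s) (g : κ → ι) (X : Fin d → ι → R) (v w : ι → R) :
    ∑ u, ∏ j ∈ s, Function.update X i (v + w) j (g u) =
      ∑ u, ∏ j ∈ s, Function.update X i v j (g u) + ∑ u, ∏ j ∈ s, Function.update X i w j (g u) := by
  rw [← sum_add_distrib]
  refine sum_congr rfl fun u _ => ?_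
  have h1 : ∀ v : ι → R, ∏ j ∈ s, Function.update X i v j (g u) =
      v (g u) * ∏ j ∈ s.erase i, X j (g u) := by
    intro v
    rw [← Finset.mul_prod_erase s _ hi, Function.update_self]
    congr 1
    refine Finset.prod_congr rfl fun j hj => ?_
    rw [Function.update_of_ne (mem_erase.1 hj).1]
  rw [h1, h1, h1, Pi.add_apply, add_mul]

theorem const_leg {R : Type*} [CommSemiring R] {d : ℕ} {ι κ : Type} [Fintype κ] (s : Finset (Fin d))
    (i : Fin d) (hi : i ∉ s) (g : κ → ι) (X : Fin d → ι → R) (v : ι → R) :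
    ∑ u, ∏ j ∈ s, Function.update X i v j (g u) = ∑ u, ∏ j ∈ s, X j (g u) := by
  refine sum_congr rfl fun u _ => Finset.prod_congr rfl fun j hj => ?_
  rw [Function.update_of_ne]
  rintro rfl
  exact hi hj

theorem bias_real {d : ℕ} {ι : Type} [Fintype ι] [DecidableEq ι] (A : (Fin (d + 1) → ι) → ZMod p) :
    bias A = ((({X : Fin (d + 1) → ι → ZMod p | ∀ v, form A (Function.update X 0 v) = 0}.ncard : ℝ) /
      (Fintype.card (Fin (d + 1) → ι → ZMod p) : ℝ) : ℝ) : ℂ) := by
  unfold bias
  rw [leg (p := p) (V := ι → ZMod p) (fun X : Fin (d + 1) → ι → ZMod p => form A X) 0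
      (fun X v w => form_update_add A X 0 v w)]
  push_cast
  rfl

theorem bias_cyc (a e : ℕ) : ((p : ℝ) ^ 2)⁻¹ ≤ (bias (cyc (ZMod p) a e)).re := by
  rw [bias_real, Complex.ofReal_re]
  have hp : (0 : ℝ) < (p : ℝ) ^ 2 := by
    have : 0 < p := (Fact.out : p.Prime).pos
    positivity
  have hN : (0 : ℝ) < (Fintype.card (Fin (e + 4) → Bool × Fin a → ZMod p) : ℝ) := by
    have : 0 < Fintype.card (Fin (e + 4) → Bool × Fin a → ZMod p) := Fintype.card_pos
    exact_mod_cast this
  obtain ⟨r0, hr0⟩ : ∃ r : Fin (e + 4), r = 0 := ⟨_, rfl⟩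
  obtain ⟨r2, hr2⟩ : ∃ r : Fin (e + 4), r.val = 2 := ⟨⟨2, by omega⟩, rfl⟩
  have hr0' : r0.val = 0 := by rw [hr0]; rfl
  have m0 : r0 ∈ gs e false := by
    rw [gs, mem_filter]
    exact ⟨mem_univ _, by simp [grp, hr0']⟩
  have m0' : r0 ∉ gs e true := by
    rw [gs, mem_filter]
    rintro ⟨_, h⟩
    simp [grp, hr0'] at h
  have m2 : r2 ∉ gs e false := by
    rw [gs, mem_filter]
    rintro ⟨_, h⟩
    simp [grp, hr2] at h
  have m2' : r2 ∈ gs e true := by
    rw [gs, mem_filter]
    exact ⟨mem_univ _, by simp [grp, hr2]⟩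
  have key := two_forms (p := p) (V := Bool × Fin a → ZMod p)
    (fun X : Fin (e + 4) → Bool × Fin a → ZMod p => ∑ v, ∏ i ∈ (gs e false)ᶜ, X i (false, v))
    (fun X => ∑ u, ∏ i ∈ gs e true, X i (true, u)) r2
    (fun X v w => add_leg _ r2 (mem_compl.2 m2) (fun u => (false, u)) X v w)
    (fun X v w => add_leg _ r2 m2' (fun u => (true, u)) X v w)
  have hsub : {X : Fin (e + 4) → Bool × Fin a → ZMod p |
      ∑ v, ∏ i ∈ (gs e false)ᶜ, X i (false, v) = 0 ∧ ∑ u, ∏ i ∈ gs e true, X i (true, u) = 0} ⊆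
      {X : Fin (e + 4) → Bool × Fin a → ZMod p |
        ∀ v, form (cyc (ZMod p) a e) (Function.update X 0 v) = 0} := by
    rintro X ⟨h1, h2⟩ v
    rw [← hr0, form_cyc, Fintype.sum_bool]
    rw [const_leg _ r0 m0' (fun u => (true, u)) X v, h2, zero_mul, zero_add]
    have m0c : r0 ∉ (gs e false)ᶜ := by rw [mem_compl, not_not]; exact m0
    rw [const_leg (gs e false)ᶜ r0 m0c (fun u => (false, u)) X v, h1, mul_zero]
  have hle := Set.ncard_le_ncard hsub (Set.toFinite _)
  rw [inv_eq_one_div, div_le_div_iff₀ hp hN, one_mul]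
  have h3 : Fintype.card (Fin (e + 4) → Bool × Fin a → ZMod p) ≤
      {X : Fin (e + 4) → Bool × Fin a → ZMod p |
        ∀ v, form (cyc (ZMod p) a e) (Function.update X 0 v) = 0}.ncard * p ^ 2 := by
    refine key.trans ?_
    rw [mul_comm]
    exact Nat.mul_le_mul_right _ hle
  exact_mod_cast h3

/-- relabelling does not change the bias -/
theorem bias_relabel {d : ℕ} {ι ι' : Type} [Fintype ι] [Fintype ι'] [DecidableEq ι]
    [DecidableEq ι'] (ε : ι ≃ ι') (A : (Fin d → ι) → ZMod p) :
    bias (fun I : Fin d → ι' => A (fun i => ε.symm (I i))) = bias A := by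
  unfold bias
  have e1 : Fintype.card (Fin d → ι' → ZMod p) = Fintype.card (Fin d → ι → ZMod p) :=
    Fintype.card_congr (Equiv.piCongrRight fun _ => Equiv.arrowCongr ε.symm (Equiv.refl _))
  rw [e1]
  congr 1
  refine Fintype.sum_equiv (Equiv.piCongrRight fun _ => Equiv.arrowCongr ε.symm (Equiv.refl _)) _ _
    fun X => ?_
  rw [form_relabel]
  rfl

end Pool.Agent.Y860.PR
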