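import Mathlib
import Pool.Agent.Y860.PR.Bias3
import Pool.Agent.Y860.PR.Asym

set_option autoImplicit false

/-! Failure of tensorization. -/

namespace Pool.Agent.Y860.PR

open Finset

universe u

/-- the tensor `cyc` with index set `Fin (2 a)` -/
noncomputable def cycF (R : Type*) [CommSemiring R] (a e : ℕ) (ε : Bool × Fin a ≃ Fin (2 * a)) :
    (Fin (e + 4) → Fin (2 * a)) → R :=
  fun I => cyc R a e (fun i => ε.symm (I i))

theorem sub_cycF {R : Type*} [CommSemiring R] {a e m : ℕ} (ε : Bool × Fin a ≃ Fin (2 * a))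
    {κ : Type} [DecidableEq κ] (E : Fin (e + 4) → κ → (Fin m → Bool × Fin a))
    (hE : ∀ q : Fin (e + 4) → κ, (∀ k, TP (fun r => E r (q r) k)) ↔ ∀ r s, q r = q s)
    (q : Fin (e + 4) → κ) :
    tpow (cycF R a e ε) m (fun r => (fun r x k => ε (E r x k)) r (q r)) = idT q := by
  rw [← tpow_cyc (R := R) E hE q]
  unfold tpow cycF
  refine Finset.prod_congr rfl fun k _ => ?_
  congr 1
  funext i
  simp

theorem prank_part (F : Type u) [Field F] (a e : ℕ) (ha : 2 ≤ a) (ε : Bool × Fin a ≃ Fin (2 * a)) :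
    prank (cycF F a e ε) ≤ 2 ∧ prank (idT : (Fin (e + 4) → Fin (2 * a)) → F) = 2 * a ∧
    ∀ c : ℝ, c < 1 → ∃ m : ℕ, 1 ≤ m ∧
      c ^ m * (prank (tpow (idT : (Fin (e + 4) → Fin (2 * a)) → F) m) : ℝ) ≤
        (prank (tpow (cycF F a e ε) m) : ℝ) := by
  have h1 : prank (idT : (Fin (e + 4) → Fin (2 * a)) → F) = 2 * a := by
    have h := prank_idT (F := F) (d := e + 2) (ι := Fin (2 * a))
    rwa [Fintype.card_fin] at h
  refine ⟨prank_le (prankLE_relabel ε _ (prankLE_cyc a e)), h1, fun c hc => ?_⟩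
  by_cases hc0 : c ≤ 0
  · refine ⟨1, le_rfl, ?_⟩
    have h2 : (0 : ℝ) ≤ (prank (tpow (cycF F a e ε) 1) : ℝ) := Nat.cast_nonneg _
    have h3 : (0 : ℝ) ≤ (prank (tpow (idT : (Fin (e + 4) → Fin (2 * a)) → F) 1) : ℝ) :=
      Nat.cast_nonneg _
    rw [pow_one]
    exact (mul_nonpos_of_nonpos_of_nonneg hc0 h3).trans h2
  · push Not at hc0
    obtain ⟨m, hm, κ, _, E, hE, hκ⟩ := comb a e ha c hc0 hc
    classical
    refine ⟨m, hm, ?_⟩
    have h2 : Fintype.card κ ≤ prank (tpow (cycF F a e ε) m) :=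
      le_prank_of_sub (d := e + 2) _ (fun r x k => ε (E r x k)) (sub_cycF (R := F) ε E hE)
    have h3 : prank (tpow (idT : (Fin (e + 4) → Fin (2 * a)) → F) m) = (2 * a) ^ m := by
      rw [tpow_idT]
      have h := prank_idT (F := F) (d := e + 2) (ι := Fin m → Fin (2 * a))
      rwa [Fintype.card_fun, Fintype.card_fin, Fintype.card_fin] at h
    rw [h3]
    push_cast
    refine hκ.trans ?_
    exact_mod_cast h2

theorem arank_part (p : ℕ) [Fact p.Prime] (e : ℕ) : (∀ (a : ℕ) (_ : 2 ≤ a)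
    (ε : Bool × Fin a ≃ Fin (2 * a)), arank (cycF (ZMod p) a e ε) ≤ 2 ∧
    ∀ c : ℝ, c < 1 → ∃ m : ℕ, 1 ≤ m ∧
      c ^ m * arank (tpow (idT : (Fin (e + 4) → Fin (2 * a)) → ZMod p) m) ≤
        arank (tpow (cycF (ZMod p) a e ε) m)) ∧
    ∀ R : ℝ, ∃ a : ℕ, 2 ≤ a ∧ R < arank (idT : (Fin (e + 4) → Fin (2 * a)) → ZMod p) := by
  obtain ⟨β, hβ0, hβ1, hid, hle⟩ := exists_beta p (e + 2)
  have hp1 : (1 : ℝ) < p := by exact_mod_cast (Fact.out : p.Prime).one_lt
  have hp0 : (0 : ℝ) < p := by linarith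
  have hL : 0 < - Real.logb p β := by
    have := Real.logb_neg hp1 hβ0 hβ1
    linarith
  have harid : ∀ (κ : Type) [Fintype κ] [DecidableEq κ],
      arank (idT : (Fin (e + 4) → κ) → ZMod p) = Fintype.card κ * (- Real.logb p β) := by
    intro κ _ _
    unfold arank
    rw [hid κ, Complex.ofReal_re, Real.logb_pow]
    ring
  constructor
  · intro a ha ε
    constructor
    · unfold arank
      have h1 : bias (cycF (ZMod p) a e ε) = bias (cyc (ZMod p) a e) := bias_relabel ε _
      rw [h1]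
      have h2 := bias_cyc (p := p) a e
      have h3 : Real.logb p (((p : ℝ) ^ 2)⁻¹) ≤ Real.logb p (bias (cyc (ZMod p) a e)).re :=
        Real.logb_le_logb_of_le hp1 (by positivity) h2
      rw [Real.logb_inv, Real.logb_pow, Real.logb_self_eq_one hp1] at h3
      push_cast at h3
      linarith
    · intro c hc
      have key : ∀ (m : ℕ) (κ : Type) (_ : Fintype κ) (_ : DecidableEq κ)
          (E : Fin (e + 4) → κ → (Fin m → Bool × Fin a)),
          (∀ q : Fin (e + 4) → κ, (∀ k, TP (fun r => E r (q r) k)) ↔ ∀ r s, q r = q s) →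
          Fintype.card κ * (- Real.logb p β) ≤ arank (tpow (cycF (ZMod p) a e ε) m) := by
        intro m κ _ _ E hE
        obtain ⟨h1, h2⟩ := hle (Fin m → Fin (2 * a)) κ (tpow (cycF (ZMod p) a e ε) m)
          (fun r x k => ε (E r x k)) (sub_cycF (R := ZMod p) ε E hE)
        unfold arank
        have h3 : Real.logb p (bias (tpow (cycF (ZMod p) a e ε) m)).re ≤
            Real.logb p (β ^ Fintype.card κ) := Real.logb_le_logb_of_le hp1 h1 h2
        rw [Real.logb_pow] at h3
        linarith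
      by_cases hc0 : c ≤ 0
      · refine ⟨1, le_rfl, ?_⟩
        have h2 : 0 ≤ arank (tpow (cycF (ZMod p) a e ε) 1) := by
          have h := key 1 Empty inferInstance inferInstance (fun _ x => x.elim) (by
            intro q
            exact (q 0).elim)
          simpa using h
        have h3 : 0 ≤ arank (tpow (idT : (Fin (e + 4) → Fin (2 * a)) → ZMod p) 1) := by
          rw [tpow_idT, harid]
          positivity
        rw [pow_one]
        exact (mul_nonpos_of_nonpos_of_nonneg hc0 h3).trans h2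
      · push Not at hc0
        obtain ⟨m, hm, κ, _, E, hE, hκ⟩ := comb a e ha c hc0 hc
        classical
        refine ⟨m, hm, ?_⟩
        refine le_trans ?_ (key m κ inferInstance inferInstance E hE)
        rw [tpow_idT, harid, Fintype.card_fun, Fintype.card_fin, Fintype.card_fin, ← mul_assoc]
        refine mul_le_mul_of_nonneg_right ?_ hL.le
        push_cast
        exact hκ
  · intro R
    obtain ⟨a, ha⟩ := exists_nat_gt (R / (- Real.logb p β))
    refine ⟨a + 2, by omega, ?_⟩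
    rw [harid, Fintype.card_fin]
    rw [div_lt_iff₀ hL] at ha
    refine ha.trans_le (mul_le_mul_of_nonneg_right ?_ hL.le)
    push_cast
    have : (0 : ℝ) ≤ a := Nat.cast_nonneg _
    linarith

theorem exists_equiv (a : ℕ) : Nonempty (Bool × Fin a ≃ Fin (2 * a)) := by
  refine ⟨Fintype.equivOfCardEq ?_⟩
  rw [Fintype.card_prod, Fintype.card_bool, Fintype.card_fin, Fintype.card_fin]

end Pool.Agent.Y860.PR
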